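import Pool.Agent.R485.Mult.Limit

/-!
# The central limit theorem for the digits of the multiples of an algebraic irrational number
-/

set_option autoImplicit false

namespace Pool.Agent.R485.Mult

open Finset Filter Topology MeasureTheory ProbabilityTheory

/-- the uniform distribution on `W 0, …, W (M - 1)` -/
noncomputable def unif (M : ℕ) (W : ℕ → ℝ) : Measure ℝ :=
  (M : ENNReal)⁻¹ • ∑ m ∈ range M, Measure.dirac (W m)

lemma unif_prob (M : ℕ) (hM : 0 < M) (W : ℕ → ℝ) : IsProbabilityMeasure (unif M W) := by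
  constructor
  unfold unif
  rw [Measure.smul_apply, Measure.finsetSum_apply]
  simp only [measure_univ, sum_const, card_range, nsmul_eq_mul, mul_one, smul_eq_mul]
  exact ENNReal.inv_mul_cancel (by exact_mod_cast hM.ne') (ENNReal.natCast_ne_top M)

lemma unif_Iic (M : ℕ) (W : ℕ → ℝ) (t : ℝ) :
    (unif M W (Set.Iic t)).toReal = (((range M).filter (fun m => W m ≤ t)).card : ℝ) / M := by
  unfold unif
  rw [Measure.smul_apply, Measure.finsetSum_apply]
  have h1 : ∀ m ∈ range M, Measure.dirac (W m) (Set.Iic t) = if W m ≤ t then 1 else 0 := by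
    intro m _
    rw [Measure.dirac_apply' _ measurableSet_Iic]
    simp [Set.indicator_apply]
  rw [sum_congr rfl h1, sum_ite, sum_const_zero, add_zero, sum_const, nsmul_eq_mul, mul_one,
    smul_eq_mul, ENNReal.toReal_mul, ENNReal.toReal_inv, ENNReal.toReal_natCast,
    ENNReal.toReal_natCast]
  field_simp

lemma unif_charFun (M : ℕ) (W : ℕ → ℝ) (θ : ℝ) :
    charFun (unif M W) θ = (∑ m ∈ range M, Complex.exp (Complex.I * (θ * W m : ℝ))) / M := by
  rw [charFun_apply_real]
  unfold unif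
  rw [integral_smul_measure, integral_finset_sum_measure]
  · simp only [integral_dirac]
    rw [ENNReal.toReal_inv, ENNReal.toReal_natCast, Complex.real_smul]
    push_cast
    rw [div_eq_inv_mul]
    congr 1
    refine sum_congr rfl fun m _ => ?_
    congr 1
    ring
  · intro m _
    exact integrable_dirac (by simp)

/-- the convergence for sequences -/
lemma clt_seq (b : ℕ) (hb : 2 ≤ b) (x : ℝ) (hx : IsAlgebraic ℚ x) (hirr : Irrational x) (f : ℕ → ℝ)
    (ε : ℝ) (hε : 0 < ε) (σ : ℝ) (hσ : 0 < σ) (hσ2 : σ ^ 2 = (∑ d ∈ range b, vv b f d ^ 2) / b)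
    (N : ℕ → ℕ) (hN : Tendsto N atTop atTop) (y : ℕ → ℝ) (J : ℕ → ℤ) (M : ℕ → ℕ)
    (hM : ∀ j, Real.exp (ε * N j) ≤ M j) (t : ℝ) :
    Tendsto (fun j => (((range (M j)).filter
      (fun m : ℕ => SS b f (N j) (y j + (J j + m) * x) / (σ * Real.sqrt (N j)) ≤ t)).card : ℝ) / M j)
      atTop (𝓝 ((gaussianReal 0 1 (Set.Iic t)).toReal)) := by
  have hM0 : ∀ j, 0 < M j := by
    intro j
    have : (0 : ℝ) < M j := lt_of_lt_of_le (Real.exp_pos _) (hM j)
    exact_mod_cast this
  set W : ℕ → ℕ → ℝ := fun j m => SS b f (N j) (y j + (J j + m) * x) / (σ * Real.sqrt (N j)) with hW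
  set P : ℕ → ProbabilityMeasure ℝ := fun j => ⟨unif (M j) (W j), unif_prob _ (hM0 j) _⟩ with hP
  set P0 : ProbabilityMeasure ℝ := ⟨gaussianReal 0 1, inferInstance⟩ with hP0
  have h1 : Tendsto P atTop (𝓝 P0) := by
    refine ProbabilityMeasure.tendsto_iff_tendsto_charFun.2 fun θ => ?_
    have e1 : charFun (P0 : Measure ℝ) θ = Complex.exp ((-((θ / σ) ^ 2 *
        ((∑ d ∈ range b, vv b f d ^ 2) / b) / 2) : ℝ) : ℂ) := by
      rw [hP0]
      simp only [ProbabilityMeasure.coe_mk]
      rw [charFun_gaussianReal, ← hσ2]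
      congr 1
      push_cast
      have : (σ : ℂ) ≠ 0 := by exact_mod_cast hσ.ne'
      field_simp
      ring
    rw [e1, tendsto_iff_norm_sub_tendsto_zero, Metric.tendsto_atTop]
    intro η hη
    obtain ⟨N0, h⟩ := char_lim b hb x hx hirr f ε hε (θ / σ) (η / 2) (by positivity)
    obtain ⟨j0, hj0⟩ := eventually_atTop.1 (hN.eventually_ge_atTop N0)
    refine ⟨j0, fun j hj => ?_⟩
    rw [Real.dist_eq, sub_zero, abs_of_nonneg (norm_nonneg _)]
    have h2 := h (N j) (hj0 j hj) (y j) (J j) (M j) (hM j)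
    have e2 : charFun (P j : Measure ℝ) θ = cavg (M j) (fun m => y j + (J j + m) * x)
        (fun z => Complex.exp (Complex.I * (θ / σ / Real.sqrt (N j) * SS b f (N j) z : ℝ))) := by
      rw [hP]
      simp only [ProbabilityMeasure.coe_mk]
      rw [unif_charFun]
      unfold cavg
      congr 1
      refine sum_congr rfl fun m _ => ?_
      congr 3
      rw [hW]
      simp only
      field_simp
    rw [e2]
    linarith
  have h2 := ProbabilityMeasure.tendsto_measure_of_null_frontier_of_tendsto' h1 (E := Set.Iic t) (by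
    rw [frontier_Iic, hP0]
    have := noAtoms_gaussianReal (μ := 0) (v := 1) one_ne_zero
    simp only [ProbabilityMeasure.coe_mk]
    exact measure_singleton t)
  have h3 := (ENNReal.tendsto_toReal (measure_ne_top (P0 : Measure ℝ) (Set.Iic t))).comp h2
  refine h3.congr fun j => ?_
  simp only [Function.comp]
  rw [hP]
  simp only [ProbabilityMeasure.coe_mk]
  rw [unif_Iic]

/-- the `i`-th digit of `z` after the point in base `b` -/
noncomputable def digit (b : ℕ) (z : ℝ) (i : ℕ) : ℕ := (⌊z * (b : ℝ) ^ i⌋ % (b : ℤ)).toNat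

lemma SS_eq (b : ℕ) (hb : 2 ≤ b) (f : ℕ → ℝ) (N : ℕ) (z : ℝ) :
    SS b f N z = ∑ i ∈ Icc 1 N, f (digit b z i) - N * ((∑ d ∈ range b, f d) / b) := by
  unfold SS gg
  rw [sum_sub_distrib, sum_const, card_range, nsmul_eq_mul]
  congr 1
  have h1 : ∀ i ∈ range N, f (dg b (z * (b : ℝ) ^ i)) = f (digit b z (i + 1)) := by
    intro i _
    unfold dg digit
    congr 4
    ring
  rw [sum_congr rfl h1, range_eq_Ico, sum_Ico_add' (fun i => f (digit b z i)) 0 N 1]
  refine sum_congr ?_ fun _ _ => rfl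
  ext i
  rw [mem_Ico, mem_Icc]
  omega

/-- **The central limit theorem**, uniformly in `y`, `J` and `M`. -/
theorem clt (b : ℕ) (hb : 2 ≤ b) (x : ℝ) (hx : IsAlgebraic ℚ x) (hirr : Irrational x) (f : ℕ → ℝ)
    (ε : ℝ) (hε : 0 < ε) (μ σ : ℝ) (hσ : 0 < σ) (hμ : μ = (∑ d ∈ range b, f d) / b)
    (hσ2 : σ ^ 2 = (∑ d ∈ range b, (f d - μ) ^ 2) / b) (t η : ℝ) (hη : 0 < η) :
    ∃ N0 : ℕ, ∀ N : ℕ, N0 ≤ N → ∀ (y : ℝ) (J : ℤ) (M : ℕ), Real.exp (ε * N) ≤ M →
      |(((range M).filter (fun m : ℕ => ∑ i ∈ Icc 1 N, f (digit b (y + (J + m) * x) i) ≤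
        μ * N + t * σ * Real.sqrt N)).card : ℝ) / M - (gaussianReal 0 1 (Set.Iic t)).toReal| ≤ η := by
  have hσ2' : σ ^ 2 = (∑ d ∈ range b, vv b f d ^ 2) / b := by
    rw [hσ2]
    unfold vv
    rw [← hμ]
  by_contra hcon
  push Not at hcon
  choose N hN1 y J M hM hbad using fun n : ℕ => hcon (n + 1)
  have hN : Tendsto N atTop atTop :=
    tendsto_atTop_mono (fun n => (Nat.le_succ n).trans (hN1 n)) tendsto_id
  have h := clt_seq b hb x hx hirr f ε hε σ hσ hσ2' N hN y J M hM t
  rw [tendsto_iff_norm_sub_tendsto_zero] at h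
  obtain ⟨j, hj⟩ := (h.eventually_lt_const hη).exists
  have h1 := hbad j
  rw [Real.norm_eq_abs] at hj
  have h2 : ((range (M j)).filter (fun m : ℕ => SS b f (N j) (y j + (J j + m) * x) /
      (σ * Real.sqrt (N j)) ≤ t)) = ((range (M j)).filter (fun m : ℕ =>
        ∑ i ∈ Icc 1 (N j), f (digit b (y j + (J j + m) * x) i) ≤
        μ * N j + t * σ * Real.sqrt (N j))) := by
    refine filter_congr fun m _ => ?_
    have hNj : (0 : ℝ) < N j := by
      have := hN1 j
      exact_mod_cast (by omega : 0 < N j)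
    have hs : 0 < Real.sqrt (N j) := Real.sqrt_pos.2 hNj
    rw [SS_eq b hb, div_le_iff₀ (by positivity), ← hμ]
    constructor
    · intro h3
      linarith
    · intro h3
      linarith
  rw [h2] at hj
  linarith

end Pool.Agent.R485.Mult
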