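import Mathlib

/-!
# Taylor expansion of the exponential function on the imaginary axis, powers and exponentials
-/

set_option autoImplicit false

namespace Pool.Agent.R485.Mult

open Finset Filter Topology

lemma taylor_aux (c : ℂ) (hc : ‖c‖ = 1) (hre : c.re = 0) (n : ℕ) :
    ∀ x : ℝ, 0 ≤ x → ‖Complex.exp (c * x) - ∑ k ∈ range n, (c * x) ^ k / (k.factorial : ℂ)‖ ≤
      x ^ n / n.factorial := by
  induction n with
  | zero =>
    intro x _
    rw [range_zero, sum_empty, sub_zero, Complex.norm_exp]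
    simp [hre]
  | succ n ih =>
    intro x hx
    have hd : ∀ t : ℝ, HasDerivAt (fun t : ℝ => Complex.exp (c * t) -
        ∑ k ∈ range (n + 1), (c * t) ^ k / (k.factorial : ℂ))
        (c * (Complex.exp (c * t) - ∑ k ∈ range n, (c * t) ^ k / (k.factorial : ℂ))) t := by
      intro t
      have h1 : HasDerivAt (fun t : ℝ => c * (t : ℂ)) (c * 1) t :=
        (Complex.ofRealCLM.hasDerivAt (x := t)).const_mul c
      have h2 : HasDerivAt (fun t : ℝ => Complex.exp (c * t)) (Complex.exp (c * t) * (c * 1)) t :=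
        h1.cexp
      have h3 : ∀ k ∈ range (n + 1), HasDerivAt (fun t : ℝ => (c * (t : ℂ)) ^ k / (k.factorial : ℂ))
          ((k : ℂ) * (c * t) ^ (k - 1) * (c * 1) / (k.factorial : ℂ)) t := by
        intro k _
        exact (h1.pow k).div_const _
      have h4 := h2.fun_sub (HasDerivAt.fun_sum h3)
      refine h4.congr_deriv ?_
      rw [sum_range_succ']
      simp only [Nat.cast_zero, zero_mul, zero_div, add_zero, Nat.add_sub_cancel]
      rw [mul_sub, mul_sum]
      congr 1
      · ring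
      · refine (sum_congr rfl fun k _ => ?_)
        rw [Nat.factorial_succ]
        push_cast
        have h5 : ((k : ℂ) + 1) ≠ 0 := by exact_mod_cast Nat.succ_ne_zero k
        have h6 : ((k.factorial : ℕ) : ℂ) ≠ 0 := by exact_mod_cast Nat.factorial_ne_zero k
        field_simp
    have hB : ∀ t : ℝ, HasDerivAt (fun t : ℝ => t ^ (n + 1) / ((n + 1).factorial : ℝ))
        (t ^ n / n.factorial) t := by
      intro t
      have h1 := (hasDerivAt_pow (n + 1) t).div_const ((n + 1).factorial : ℝ)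
      refine h1.congr_deriv ?_
      rw [Nat.factorial_succ, Nat.add_sub_cancel]
      push_cast
      have h5 : ((n : ℝ) + 1) ≠ 0 := by positivity
      have h6 : ((n.factorial : ℕ) : ℝ) ≠ 0 := by positivity
      field_simp
    have h := image_norm_le_of_norm_deriv_right_le_deriv_boundary (a := 0) (b := x)
      (f := fun t : ℝ => Complex.exp (c * t) - ∑ k ∈ range (n + 1), (c * t) ^ k / (k.factorial : ℂ))
      (f' := fun t : ℝ => c * (Complex.exp (c * t) - ∑ k ∈ range n, (c * t) ^ k / (k.factorial : ℂ)))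
      (fun t _ => (hd t).continuousAt.continuousWithinAt)
      (fun t _ => (hd t).hasDerivWithinAt)
      (B := fun t : ℝ => t ^ (n + 1) / ((n + 1).factorial : ℝ)) (B' := fun t => t ^ n / n.factorial)
      (by
        rw [sum_range_succ']
        simp) hB
      (fun t ht => by
        rw [norm_mul, hc, one_mul]
        exact ih t ht.1)
    exact h (Set.right_mem_Icc.2 hx)

/-- `|exp(ix) - ∑_{k < n} (ix)^k / k!| ≤ |x|^n / n!` -/
lemma taylor (x : ℝ) (n : ℕ) :
    ‖Complex.exp (Complex.I * x) - ∑ k ∈ range n, (Complex.I * x) ^ k / (k.factorial : ℂ)‖ ≤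
      |x| ^ n / n.factorial := by
  rcases le_total 0 x with h | h
  · rw [abs_of_nonneg h]
    exact taylor_aux Complex.I (by simp) (by simp) n x h
  · rw [abs_of_nonpos h]
    have h1 := taylor_aux (-Complex.I) (by simp) (by simp) n (-x) (by linarith)
    have h2 : -Complex.I * ((-x : ℝ) : ℂ) = Complex.I * x := by
      push_cast; ring
    rw [h2] at h1
    exact h1

/-- `N ^ n exp(- ε N) → 0` -/
lemma pow_mul_exp_tendsto (n : ℕ) (ε : ℝ) (hε : 0 < ε) :
    Tendsto (fun N : ℕ => (N : ℝ) ^ n * Real.exp (-(ε * N))) atTop (𝓝 0) := by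
  have h1 := Real.tendsto_pow_mul_exp_neg_atTop_nhds_zero n
  have h2 : Tendsto (fun N : ℕ => ε * (N : ℝ)) atTop atTop :=
    tendsto_natCast_atTop_atTop.const_mul_atTop hε
  have h3 := (h1.comp h2).const_mul ((1 / ε) ^ n)
  rw [mul_zero] at h3
  refine h3.congr fun N => ?_
  simp only [Function.comp]
  rw [mul_pow, ← mul_assoc, ← mul_assoc, ← mul_pow, one_div, inv_mul_cancel₀ hε.ne', one_pow,
    one_mul]

/-- `N ^ n / N ^ (n + 1) → 0` -/
lemma pow_mul_inv_tendsto (n A : ℕ) (h : n < A) :
    Tendsto (fun N : ℕ => (N : ℝ) ^ n * (1 / (N : ℝ) ^ A)) atTop (𝓝 0) := by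
  have h1 : Tendsto (fun N : ℕ => 1 / (N : ℝ)) atTop (𝓝 0) := tendsto_one_div_atTop_nhds_zero_nat
  have h2 : Tendsto (fun N : ℕ => (1 / (N : ℝ)) ^ (A - n)) atTop (𝓝 (0 ^ (A - n))) := h1.pow _
  rw [zero_pow (by omega)] at h2
  refine h2.congr' ?_
  filter_upwards [eventually_gt_atTop 0] with N hN
  have hN0 : (0 : ℝ) < N := by exact_mod_cast hN
  have h3 : (N : ℝ) ^ A = (N : ℝ) ^ n * (N : ℝ) ^ (A - n) := by
    rw [← pow_add]
    congr 1
    omega
  rw [h3]
  have h4 : (N : ℝ) ^ n ≠ 0 := by positivity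
  have h5 : (N : ℝ) ^ (A - n) ≠ 0 := by positivity
  rw [one_div_pow, mul_one_div, div_mul_cancel_left₀ h4, one_div]

end Pool.Agent.R485.Mult
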