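import Pool.Agent.R485.Mult.Model
import Pool.Agent.R485.Mult.Taylor

/-!
# The characteristic functions
-/

set_option autoImplicit false

namespace Pool.Agent.R485.Mult

open Finset Filter Topology
open Pool.Agent.H469R2.NK (e norm_e e_add e_zero conj_e)

/-- the centered digit function -/
noncomputable def gg (b : ℕ) (f : ℕ → ℝ) (t : ℝ) : ℝ := f (dg b t) - (∑ a ∈ range b, f a) / b

/-- the centered sum over the first `N` digits -/
noncomputable def SS (b : ℕ) (f : ℕ → ℝ) (N : ℕ) (z : ℝ) : ℝ :=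
  ∑ i ∈ range N, gg b f (z * (b : ℝ) ^ i)

/-- the centered values -/
noncomputable def vv (b : ℕ) (f : ℕ → ℝ) (d : ℕ) : ℝ := f d - (∑ a ∈ range b, f a) / b

lemma sum_vv (b : ℕ) (hb : 2 ≤ b) (f : ℕ → ℝ) : ∑ d ∈ range b, vv b f d = 0 := by
  have hb0 : (b : ℝ) ≠ 0 := by exact_mod_cast (by omega : b ≠ 0)
  unfold vv
  rw [sum_sub_distrib, sum_const, card_range, nsmul_eq_mul]
  field_simp
  ring

lemma abs_vv (b : ℕ) (hb : 2 ≤ b) (f : ℕ → ℝ) (F : ℝ) (hF : ∀ a ∈ range b, |f a| ≤ F) (d : ℕ)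
    (hd : d ∈ range b) : |vv b f d| ≤ 2 * F := by
  have hb0 : (0 : ℝ) < b := by exact_mod_cast (by omega : 0 < b)
  have h3 : |(∑ a ∈ range b, f a) / b| ≤ F := by
    rw [abs_div, abs_of_pos hb0, div_le_iff₀ hb0]
    refine (abs_sum_le_sum_abs _ _).trans ((sum_le_sum hF).trans (le_of_eq ?_))
    rw [sum_const, card_range, nsmul_eq_mul, mul_comm]
  unfold vv
  refine (abs_sub _ _).trans ?_
  linarith [hF d hd]

/-- the points of the model -/
noncomputable def ZM (b N : ℕ) (a : ℕ) : ℝ := (a : ℝ) / (b : ℝ) ^ (2 * N)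

lemma SS_model (b : ℕ) (hb : 2 ≤ b) (f : ℕ → ℝ) (N a : ℕ) :
    SS b f N (ZM b N a) = ∑ i ∈ range N, vv b f (a / b ^ (2 * N - 1 - i) % b) := by
  unfold SS gg vv ZM
  refine sum_congr rfl fun i hi => ?_
  rw [mem_range] at hi
  rw [dg_model b hb N a i (by omega)]

lemma model_exp (b : ℕ) (hb : 2 ≤ b) (f : ℕ → ℝ) (N : ℕ) (c : ℂ) :
    (∑ a ∈ range (b ^ (2 * N)), Complex.exp (c * SS b f N (ZM b N a))) / ((b ^ (2 * N) : ℕ) : ℂ) =
      ((∑ d ∈ range b, Complex.exp (c * vv b f d)) / b) ^ N := by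
  have hb0 : (b : ℂ) ≠ 0 := by exact_mod_cast (by omega : b ≠ 0)
  have h1 : ∀ a : ℕ, Complex.exp (c * SS b f N (ZM b N a)) =
      ∏ i ∈ range N, (fun d => Complex.exp (c * vv b f d)) (a / b ^ (2 * N - 1 - i) % b) := by
    intro a
    rw [SS_model b hb]
    push_cast
    rw [mul_sum, Complex.exp_sum]
  simp_rw [h1]
  rw [model_prod b (by omega) (fun d => Complex.exp (c * vv b f d)) (2 * N) N (by omega)]
  rw [div_pow]
  have h2 : 2 * N - N = N := by omega
  rw [h2]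
  push_cast
  rw [two_mul, pow_add]
  field_simp

lemma model_exp_real (b : ℕ) (hb : 2 ≤ b) (f : ℕ → ℝ) (N : ℕ) (c : ℝ) :
    avg (b ^ (2 * N)) (ZM b N) (fun z => Real.exp (c * SS b f N z)) =
      ((∑ d ∈ range b, Real.exp (c * vv b f d)) / b) ^ N := by
  have h := model_exp b hb f N c
  have h2 : ((avg (b ^ (2 * N)) (ZM b N) (fun z => Real.exp (c * SS b f N z)) : ℝ) : ℂ) =
      (((∑ d ∈ range b, Real.exp (c * vv b f d)) / b) ^ N : ℝ) := by
    unfold avg
    push_cast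
    push_cast at h
    exact h
  exact_mod_cast h2

lemma mgf_bound (b : ℕ) (hb : 2 ≤ b) (f : ℕ → ℝ) (F : ℝ) (hF : ∀ a ∈ range b, |f a| ≤ F) (N : ℕ)
    (c : ℝ) (hc : |c| * (2 * F) ≤ 1) :
    avg (b ^ (2 * N)) (ZM b N) (fun z => Real.exp (c * SS b f N z)) ≤
      Real.exp (N * (c ^ 2 * (4 * F ^ 2))) := by
  have hb0 : (0 : ℝ) < b := by exact_mod_cast (by omega : 0 < b)
  rw [model_exp_real b hb]
  have h1 : ∀ d ∈ range b, Real.exp (c * vv b f d) ≤ 1 + c * vv b f d + c ^ 2 * (4 * F ^ 2) := by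
    intro d hd
    have hv := abs_vv b hb f F hF d hd
    have h2 : |c * vv b f d| ≤ 1 := by
      rw [abs_mul]
      exact (mul_le_mul_of_nonneg_left hv (abs_nonneg _)).trans hc
    have h3 := Real.abs_exp_sub_one_sub_id_le h2
    have h4 := (abs_le.1 h3).2
    have h5 : (c * vv b f d) ^ 2 ≤ c ^ 2 * (4 * F ^ 2) := by
      rw [mul_pow]
      apply mul_le_mul_of_nonneg_left _ (sq_nonneg _)
      have h6 := abs_le.1 hv
      nlinarith [h6.1, h6.2]
    linarith
  have h2 : (∑ d ∈ range b, Real.exp (c * vv b f d)) / b ≤ 1 + c ^ 2 * (4 * F ^ 2) := by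
    rw [div_le_iff₀ hb0]
    refine (sum_le_sum h1).trans (le_of_eq ?_)
    rw [sum_add_distrib, sum_add_distrib, ← mul_sum, sum_vv b hb, sum_const, sum_const, card_range,
      nsmul_eq_mul, nsmul_eq_mul]
    ring
  have h3 : 0 ≤ (∑ d ∈ range b, Real.exp (c * vv b f d)) / b :=
    div_nonneg (sum_nonneg fun d _ => (Real.exp_pos _).le) hb0.le
  have h4 : 1 + c ^ 2 * (4 * F ^ 2) ≤ Real.exp (c ^ 2 * (4 * F ^ 2)) := by
    have := Real.add_one_le_exp (c ^ 2 * (4 * F ^ 2))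
    linarith
  rw [Real.exp_nat_mul]
  exact pow_le_pow_left₀ h3 (h2.trans h4) N

lemma pow_le_exp_add (x : ℝ) (n : ℕ) (hn : Even n) :
    x ^ n / n.factorial ≤ Real.exp x + Real.exp (-x) := by
  rw [← hn.pow_abs]
  have h1 := Real.pow_div_factorial_le_exp |x| (abs_nonneg x) n
  rcases le_total 0 x with h | h
  · rw [abs_of_nonneg h] at h1 ⊢
    have := Real.exp_pos (-x)
    linarith
  · rw [abs_of_nonpos h] at h1 ⊢
    have := Real.exp_pos x
    linarith

/-- the even moments of the model -/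
lemma model_moment (b : ℕ) (hb : 2 ≤ b) (f : ℕ → ℝ) (F : ℝ) (hF : ∀ a ∈ range b, |f a| ≤ F) (N : ℕ)
    (c : ℝ) (hc : |c| * (2 * F) ≤ 1) (n : ℕ) (hn : Even n) :
    c ^ n / n.factorial * avg (b ^ (2 * N)) (ZM b N) (fun z => SS b f N z ^ n) ≤
      2 * Real.exp (N * (c ^ 2 * (4 * F ^ 2))) := by
  rw [← avg_mul]
  have h1 : ∀ z, c ^ n / n.factorial * SS b f N z ^ n ≤
      Real.exp (c * SS b f N z) + Real.exp (-c * SS b f N z) := by
    intro z
    have := pow_le_exp_add (c * SS b f N z) n hn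
    rw [mul_pow] at this
    rw [neg_mul]
    refine le_trans (le_of_eq ?_) this
    ring
  refine (avg_mono h1).trans ?_
  have h2 : avg (b ^ (2 * N)) (ZM b N)
      (fun z => Real.exp (c * SS b f N z) + Real.exp (-c * SS b f N z)) =
      avg (b ^ (2 * N)) (ZM b N) (fun z => Real.exp (c * SS b f N z)) +
      avg (b ^ (2 * N)) (ZM b N) (fun z => Real.exp (-c * SS b f N z)) := by
    unfold avg
    rw [sum_add_distrib, add_div]
  rw [h2]
  have h3 := mgf_bound b hb f F hF N c hc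
  have h4 := mgf_bound b hb f F hF N (-c) (by rw [abs_neg]; exact hc)
  rw [neg_sq] at h4
  linarith

/-- complex averages -/
noncomputable def cavg (M : ℕ) (Z : ℕ → ℝ) (F : ℝ → ℂ) : ℂ := (∑ m ∈ range M, F (Z m)) / M

/-- characteristic functions are compared by moments -/
lemma compare (M M' : ℕ) (Z Z' : ℕ → ℝ) (S : ℝ → ℝ) (θ : ℝ) (n : ℕ) (hn : Even n) (Δ : ℕ → ℝ)
    (hM : 0 < M) (hM' : 0 < M')
    (hΔ : ∀ j ≤ n, |avg M Z (fun z => S z ^ j) - avg M' Z' (fun z => S z ^ j)| ≤ Δ j) :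
    ‖cavg M Z (fun z => Complex.exp (Complex.I * (θ * S z : ℝ))) -
      cavg M' Z' (fun z => Complex.exp (Complex.I * (θ * S z : ℝ)))‖ ≤
      ∑ j ∈ range (n + 1), |θ| ^ j / j.factorial * Δ j +
        2 * (θ ^ n / n.factorial * avg M' Z' (fun z => S z ^ n)) := by
  have hMR : (0 : ℝ) < M := by exact_mod_cast hM
  have hMR' : (0 : ℝ) < M' := by exact_mod_cast hM'
  have hθn : |θ| ^ n = θ ^ n := hn.pow_abs θ
  have hθ0 : 0 ≤ θ ^ n := by rw [← hθn]; positivity
  have key : ∀ (M : ℕ) (Z : ℕ → ℝ), 0 < M →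
      ‖cavg M Z (fun z => Complex.exp (Complex.I * (θ * S z : ℝ))) -
        ∑ j ∈ range n, (Complex.I * θ) ^ j / (j.factorial : ℂ) *
          ((avg M Z (fun z => S z ^ j) : ℝ) : ℂ)‖ ≤
        θ ^ n / n.factorial * avg M Z (fun z => S z ^ n) := by
    intro M Z hM
    have hMR : (0 : ℝ) < M := by exact_mod_cast hM
    have h1 : cavg M Z (fun z => Complex.exp (Complex.I * (θ * S z : ℝ))) -
        ∑ j ∈ range n, (Complex.I * θ) ^ j / (j.factorial : ℂ) *
          ((avg M Z (fun z => S z ^ j) : ℝ) : ℂ) =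
        (∑ m ∈ range M, (Complex.exp (Complex.I * (θ * S (Z m) : ℝ)) -
          ∑ j ∈ range n, (Complex.I * (θ * S (Z m) : ℝ)) ^ j / (j.factorial : ℂ))) / M := by
      unfold cavg avg
      rw [sum_sub_distrib, sub_div, sum_comm]
      congr 1
      rw [sum_div]
      refine sum_congr rfl fun j _ => ?_
      push_cast
      rw [mul_div_assoc', mul_sum]
      congr 1
      refine sum_congr rfl fun m _ => ?_
      ring
    rw [h1, norm_div, Complex.norm_natCast, div_le_iff₀ hMR]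
    refine (norm_sum_le _ _).trans ?_
    have h2 : ∀ m ∈ range M, ‖Complex.exp (Complex.I * (θ * S (Z m) : ℝ)) -
        ∑ j ∈ range n, (Complex.I * (θ * S (Z m) : ℝ)) ^ j / (j.factorial : ℂ)‖ ≤
        θ ^ n / n.factorial * S (Z m) ^ n := by
      intro m _
      refine (taylor (θ * S (Z m)) n).trans (le_of_eq ?_)
      rw [hn.pow_abs, mul_pow]
      ring
    refine (sum_le_sum h2).trans (le_of_eq ?_)
    unfold avg
    rw [← mul_sum]
    field_simp
  have k1 := key M Z hM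
  have k2 := key M' Z' hM'
  have hd : ‖∑ j ∈ range n, (Complex.I * θ) ^ j / (j.factorial : ℂ) *
          ((avg M Z (fun z => S z ^ j) : ℝ) : ℂ) - ∑ j ∈ range n, (Complex.I * θ) ^ j /
          (j.factorial : ℂ) * ((avg M' Z' (fun z => S z ^ j) : ℝ) : ℂ)‖ ≤
      ∑ j ∈ range n, |θ| ^ j / j.factorial * Δ j := by
    rw [← sum_sub_distrib]
    refine (norm_sum_le _ _).trans (sum_le_sum fun j hj => ?_)
    rw [mem_range] at hj
    rw [← mul_sub, norm_mul, norm_div, norm_pow, norm_mul, Complex.norm_I, one_mul,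
      Complex.norm_real, Real.norm_eq_abs, Complex.norm_natCast, ← Complex.ofReal_sub,
      Complex.norm_real, Real.norm_eq_abs]
    exact mul_le_mul_of_nonneg_left (hΔ j hj.le) (by positivity)
  have hn2 : θ ^ n / n.factorial * avg M Z (fun z => S z ^ n) ≤
      θ ^ n / n.factorial * avg M' Z' (fun z => S z ^ n) + |θ| ^ n / n.factorial * Δ n := by
    rw [hθn, ← mul_add]
    apply mul_le_mul_of_nonneg_left _ (by positivity)
    have := (abs_le.1 (hΔ n le_rfl)).2
    linarith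
  rw [sum_range_succ]
  set A1 := cavg M Z (fun z => Complex.exp (Complex.I * (θ * S z : ℝ)))
  set A2 := cavg M' Z' (fun z => Complex.exp (Complex.I * (θ * S z : ℝ)))
  set P1 := ∑ j ∈ range n, (Complex.I * θ) ^ j / (j.factorial : ℂ) *
          ((avg M Z (fun z => S z ^ j) : ℝ) : ℂ)
  set P2' := ∑ j ∈ range n, (Complex.I * θ) ^ j /
          (j.factorial : ℂ) * ((avg M' Z' (fun z => S z ^ j) : ℝ) : ℂ)
  have e1 : A1 - A2 = (A1 - P1) + (P1 - P2') - (A2 - P2') := by ring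
  rw [e1]
  refine (norm_sub_le _ _).trans ?_
  have h5 := norm_add_le (A1 - P1) (P1 - P2')
  linarith

end Pool.Agent.R485.Mult
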