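import Pool.Agent.R485.Mult.Trig

/-!
# Correlations
-/

set_option autoImplicit false

namespace Pool.Agent.R485.Mult

open Finset Filter Topology
open Pool.Agent.H469R2.NK (e norm_e e_add e_zero conj_e)

/-- the average of `F` over the points `Z 0, …, Z (M - 1)` -/
noncomputable def avg (M : ℕ) (Z : ℕ → ℝ) (F : ℝ → ℝ) : ℝ := (∑ m ∈ range M, F (Z m)) / M

/-- the exponential sums over the points `Z 0, …, Z (M - 1)` are small for all nonzero frequencies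
`∑_j h_j b ^ (i_j)` with `k` terms, `|h_j| ≤ K` and `i_j ≤ N` -/
def Good (b K k N M : ℕ) (Z : ℕ → ℝ) (ρ : ℝ) : Prop :=
  ∀ i : Fin k → ℕ, (∀ j, i j ≤ N) → ∀ h : Fin k → ℤ, (∀ j, |h j| ≤ K) →
    ∑ j, h j * (b : ℤ) ^ (i j) ≠ 0 →
    ‖∑ m ∈ range M, e (Z m * ((∑ j, h j * (b : ℤ) ^ (i j) : ℤ) : ℝ))‖ ≤ ρ * M

lemma avg_prod_TP {b K k N : ℕ} {R : ℝ} (T : Fin k → ℝ → ℝ) (μ : Fin k → ℝ)
    (hT : ∀ j, IsTP K R (T j) (μ j)) (i : Fin k → ℕ) (hi : ∀ j, i j ≤ N) :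
    ∃ V : ℂ, ∀ (M : ℕ) (Z : ℕ → ℝ) (ρ : ℝ), 0 < M → 0 ≤ ρ → Good b K k N M Z ρ →
      ‖((avg M Z (fun z => ∏ j, T j (z * (b : ℝ) ^ (i j))) : ℝ) : ℂ) - V‖ ≤ ρ * R ^ k := by
  classical
  choose c hc1 hc2 hc3 using hT
  set PP := Fintype.piFinset (fun _ : Fin k => Icc (-(K : ℤ)) K) with hPP
  set fr : (Fin k → ℤ) → ℤ := fun h => ∑ j, h j * (b : ℤ) ^ (i j) with hfr
  refine ⟨∑ h ∈ PP, if fr h = 0 then ∏ j, c j (h j) else 0, fun M Z ρ hM hρ hg => ?_⟩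
  have hMR : (0 : ℝ) < M := by exact_mod_cast hM
  have hMC : (M : ℂ) ≠ 0 := by exact_mod_cast hM.ne'
  have h1 : ∀ z : ℝ, ((∏ j, T j (z * (b : ℝ) ^ (i j)) : ℝ) : ℂ) =
      ∑ h ∈ PP, (∏ j, c j (h j)) * e (z * (fr h : ℝ)) := by
    intro z
    rw [Complex.ofReal_prod, prod_congr rfl fun j _ => hc1 j _, prod_univ_sum]
    refine sum_congr rfl fun h _ => ?_
    rw [prod_mul_distrib, ← e_sum]
    congr 2
    rw [hfr]
    push_cast
    rw [mul_sum]
    exact sum_congr rfl fun j _ => by ring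
  have h2 : ((avg M Z (fun z => ∏ j, T j (z * (b : ℝ) ^ (i j))) : ℝ) : ℂ) =
      ∑ h ∈ PP, (∏ j, c j (h j)) * ((∑ m ∈ range M, e (Z m * (fr h : ℝ))) / M) := by
    unfold avg
    push_cast
    rw [sum_div]
    have : ∀ m : ℕ, (∏ j, ((T j (Z m * (b : ℝ) ^ (i j)) : ℝ) : ℂ)) =
        ∑ h ∈ PP, (∏ j, c j (h j)) * e (Z m * (fr h : ℝ)) := by
      intro m
      rw [← h1 (Z m), Complex.ofReal_prod]
    simp_rw [this, sum_div, mul_sum]
    rw [sum_comm]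
    exact sum_congr rfl fun h _ => sum_congr rfl fun m _ => by ring
  rw [h2, ← sum_sub_distrib]
  have h3 : ∀ h ∈ PP, ‖(∏ j, c j (h j)) * ((∑ m ∈ range M, e (Z m * (fr h : ℝ))) / M) -
      (if fr h = 0 then ∏ j, c j (h j) else 0)‖ ≤ ρ * ∏ j, ‖c j (h j)‖ := by
    intro h hh
    have hP0 : 0 ≤ ∏ j, ‖c j (h j)‖ := prod_nonneg fun j _ => norm_nonneg _
    split_ifs with h0
    · have : (∑ m ∈ range M, e (Z m * (fr h : ℝ))) / (M : ℂ) = 1 := by
        rw [h0]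
        simp [e_zero, hMC]
      rw [this, mul_one, sub_self, norm_zero]
      positivity
    · rw [sub_zero, norm_mul, norm_prod, mul_comm]
      apply mul_le_mul_of_nonneg_right _ hP0
      rw [norm_div, Complex.norm_natCast, div_le_iff₀ hMR]
      refine hg i hi h (fun j => ?_) h0
      have := (Fintype.mem_piFinset.1 hh) j
      rw [mem_Icc] at this
      exact abs_le.2 this
  refine (norm_sum_le _ _).trans ((sum_le_sum h3).trans ?_)
  rw [← mul_sum]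
  apply mul_le_mul_of_nonneg_left _ hρ
  rw [hPP, ← prod_univ_sum (fun _ => Icc (-(K : ℤ)) K) (fun j h => ‖c j h‖)]
  calc ∏ j : Fin k, ∑ h ∈ Icc (-(K : ℤ)) K, ‖c j h‖ ≤ ∏ _j : Fin k, R :=
        prod_le_prod (fun j _ => sum_nonneg fun h _ => norm_nonneg _) fun j _ => hc2 j
    _ = R ^ k := by simp

/-- the average of one trigonometric polynomial is near to its constant coefficient -/
lemma avg_TP {b K k N : ℕ} (hk : 1 ≤ k) {R : ℝ} {T : ℝ → ℝ} {μ : ℝ} (hb : 1 ≤ b)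
    (hT : IsTP K R T μ) (i : ℕ) (hi : i ≤ N) (M : ℕ) (Z : ℕ → ℝ) (ρ : ℝ) (hM : 0 < M)
    (hρ : 0 ≤ ρ) (hg : Good b K k N M Z ρ) :
    |avg M Z (fun z => T (z * (b : ℝ) ^ i)) - μ| ≤ ρ * R := by
  classical
  obtain ⟨c, hc1, hc2, hc3⟩ := hT
  have hMR : (0 : ℝ) < M := by exact_mod_cast hM
  have hMC : (M : ℂ) ≠ 0 := by exact_mod_cast hM.ne'
  have h0mem : (0 : ℤ) ∈ Icc (-(K : ℤ)) K := mem_Icc.2 ⟨by omega, by omega⟩
  have h2 : ((avg M Z (fun z => T (z * (b : ℝ) ^ i)) : ℝ) : ℂ) =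
      ∑ h ∈ Icc (-(K : ℤ)) K, c h * ((∑ m ∈ range M, e (Z m * ((h * (b : ℤ) ^ i : ℤ) : ℝ))) / M) := by
    unfold avg
    push_cast
    simp_rw [hc1, sum_div, mul_sum]
    rw [sum_comm]
    refine sum_congr rfl fun h _ => sum_congr rfl fun m _ => ?_
    rw [mul_div_assoc]
    congr 3
    ring
  have h3 : (μ : ℂ) = ∑ h ∈ Icc (-(K : ℤ)) K, if h = 0 then c h else 0 := by
    rw [sum_ite_eq' (Icc (-(K : ℤ)) K) 0 c, if_pos h0mem, hc3]
  rw [← Real.norm_eq_abs, ← Complex.norm_real]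
  push_cast
  rw [h2, h3, ← sum_sub_distrib]
  have h4 : ∀ h ∈ Icc (-(K : ℤ)) K, ‖c h * ((∑ m ∈ range M, e (Z m * ((h * (b : ℤ) ^ i : ℤ) : ℝ))) /
      (M : ℂ)) - (if h = 0 then c h else 0)‖ ≤ ρ * ‖c h‖ := by
    intro h hh
    split_ifs with h0
    · subst h0
      have : (∑ m ∈ range M, e (Z m * (((0 : ℤ) * (b : ℤ) ^ i : ℤ) : ℝ))) / (M : ℂ) = 1 := by
        simp [e_zero, hMC]
      rw [this, mul_one, sub_self, norm_zero]
      positivity
    · rw [sub_zero, norm_mul, mul_comm]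
      apply mul_le_mul_of_nonneg_right _ (norm_nonneg _)
      rw [norm_div, Complex.norm_natCast, div_le_iff₀ hMR]
      have h5 := hg (fun _ => i) (fun _ => hi) (fun j => if (j : ℕ) = 0 then h else 0) (by
        intro j
        split_ifs
        · rw [mem_Icc] at hh
          exact abs_le.2 hh
        · simp) 
      have h6 : ∑ j : Fin k, (if (j : ℕ) = 0 then h else 0) * (b : ℤ) ^ i = h * (b : ℤ) ^ i := by
        rw [sum_eq_single (⟨0, by omega⟩ : Fin k)]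
        · simp
        · intro j _ hj
          rw [if_neg, zero_mul]
          intro hj0
          exact hj (Fin.ext hj0)
        · intro h7
          exact absurd (mem_univ _) h7
      rw [h6] at h5
      exact h5 (mul_ne_zero h0 (pow_ne_zero _ (by omega)))
  refine (norm_sum_le _ _).trans ((sum_le_sum h4).trans ?_)
  rw [← mul_sum]
  exact mul_le_mul_of_nonneg_left hc2 hρ

lemma abs_prod_sub {ι : Type*} (S : Finset ι) (u v : ι → ℝ) (C : ℝ) (hC : 1 ≤ C)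
    (hu : ∀ i ∈ S, |u i| ≤ C) (hv : ∀ i ∈ S, |v i| ≤ C) :
    |∏ i ∈ S, u i - ∏ i ∈ S, v i| ≤ C ^ S.card * ∑ i ∈ S, |u i - v i| := by
  classical
  induction S using Finset.induction_on with
  | empty => simp
  | insert a S ha ih =>
    rw [prod_insert ha, prod_insert ha, sum_insert ha, card_insert_of_notMem ha]
    have ih' := ih (fun i hi => hu i (mem_insert_of_mem hi)) (fun i hi => hv i (mem_insert_of_mem hi))
    have hpu : |∏ i ∈ S, u i| ≤ C ^ S.card := by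
      rw [abs_prod]
      calc ∏ i ∈ S, |u i| ≤ ∏ _i ∈ S, C :=
            prod_le_prod (fun i _ => abs_nonneg _) fun i hi => hu i (mem_insert_of_mem hi)
        _ = C ^ S.card := by rw [prod_const]
    have e1 : u a * ∏ i ∈ S, u i - v a * ∏ i ∈ S, v i =
        (u a - v a) * ∏ i ∈ S, u i + v a * (∏ i ∈ S, u i - ∏ i ∈ S, v i) := by ring
    rw [e1]
    refine (abs_add_le _ _).trans ?_
    rw [abs_mul, abs_mul]
    have h1 : |u a - v a| * |∏ i ∈ S, u i| ≤ |u a - v a| * C ^ S.card :=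
      mul_le_mul_of_nonneg_left hpu (abs_nonneg _)
    have h2 : |v a| * |∏ i ∈ S, u i - ∏ i ∈ S, v i| ≤ C * (C ^ S.card * ∑ i ∈ S, |u i - v i|) :=
      mul_le_mul (hv a (mem_insert_self _ _)) ih' (abs_nonneg _) (by linarith)
    have h3 : |u a - v a| * C ^ S.card ≤ C ^ (S.card + 1) * |u a - v a| := by
      rw [pow_succ]
      have h4 : 0 ≤ |u a - v a| * C ^ S.card := by positivity
      nlinarith
    calc _ ≤ |u a - v a| * C ^ S.card + C * (C ^ S.card * ∑ i ∈ S, |u i - v i|) := by linarith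
      _ ≤ C ^ (S.card + 1) * |u a - v a| + C * (C ^ S.card * ∑ i ∈ S, |u i - v i|) := by linarith
      _ = _ := by ring

lemma avg_mono {M : ℕ} {Z : ℕ → ℝ} {F G : ℝ → ℝ} (h : ∀ z, F z ≤ G z) : avg M Z F ≤ avg M Z G := by
  unfold avg
  exact div_le_div_of_nonneg_right (sum_le_sum fun m _ => h _) (Nat.cast_nonneg _)

lemma avg_sub {M : ℕ} {Z : ℕ → ℝ} (F G : ℝ → ℝ) :
    avg M Z F - avg M Z G = avg M Z (fun z => F z - G z) := by
  unfold avg
  rw [sum_sub_distrib, sub_div]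

lemma abs_avg_le {M : ℕ} {Z : ℕ → ℝ} (F : ℝ → ℝ) : |avg M Z F| ≤ avg M Z (fun z => |F z|) := by
  unfold avg
  rw [abs_div, Nat.abs_cast]
  exact div_le_div_of_nonneg_right (abs_sum_le_sum_abs _ _) (Nat.cast_nonneg _)

lemma avg_sum {ι : Type*} {M : ℕ} {Z : ℕ → ℝ} (S : Finset ι) (F : ι → ℝ → ℝ) :
    avg M Z (fun z => ∑ i ∈ S, F i z) = ∑ i ∈ S, avg M Z (F i) := by
  unfold avg
  rw [sum_comm, sum_div]

lemma avg_mul {M : ℕ} {Z : ℕ → ℝ} (a : ℝ) (F : ℝ → ℝ) :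
    avg M Z (fun z => a * F z) = a * avg M Z F := by
  unfold avg
  rw [← mul_sum, mul_div_assoc]

/-- `g` is approximated by trigonometric polynomials of degree `K` -/
def Approx (K : ℕ) (R C w : ℝ) (g : ℝ → ℝ) : Prop :=
  ∃ (G W : ℝ → ℝ) (μ ω : ℝ), IsTP K R G μ ∧ IsTP K R W ω ∧ (∀ t, |g t| ≤ C) ∧ (∀ t, |G t| ≤ C) ∧
    (∀ t, |g t - G t| ≤ W t) ∧ ω ≤ w

/-- products of shifts of `g` have almost the same average for all good sets of points -/
lemma avg_prod {b K k N : ℕ} (hb : 1 ≤ b) (hk : 1 ≤ k) {R C w : ℝ} {g : ℝ → ℝ}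
    (hg : Approx K R C w g) (hC : 1 ≤ C) (i : Fin k → ℕ)
    (hi : ∀ j, i j ≤ N) (M M' : ℕ) (Z Z' : ℕ → ℝ) (ρ : ℝ) (hM : 0 < M) (hM' : 0 < M')
    (hρ : 0 ≤ ρ) (h : Good b K k N M Z ρ) (h' : Good b K k N M' Z' ρ) :
    |avg M Z (fun z => ∏ j, g (z * (b : ℝ) ^ (i j))) -
      avg M' Z' (fun z => ∏ j, g (z * (b : ℝ) ^ (i j)))| ≤
        2 * (C ^ k * (k * (w + ρ * R))) + 2 * (ρ * R ^ k) := by
  obtain ⟨G, W, μ, ω, hG, hW, hgC, hGC, hgG, hω⟩ := hg
  obtain ⟨V, hV⟩ := avg_prod_TP (b := b) (N := N) (fun _ : Fin k => G) (fun _ => μ) (fun _ => hG) i hi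
  have key : ∀ (M : ℕ) (Z : ℕ → ℝ), 0 < M → Good b K k N M Z ρ →
      |avg M Z (fun z => ∏ j, g (z * (b : ℝ) ^ (i j))) -
        avg M Z (fun z => ∏ j, G (z * (b : ℝ) ^ (i j)))| ≤ C ^ k * (k * (w + ρ * R)) := by
    intro M Z hM hgood
    rw [avg_sub]
    refine (abs_avg_le _).trans ?_
    have h1 : ∀ z, |∏ j, g (z * (b : ℝ) ^ (i j)) - ∏ j, G (z * (b : ℝ) ^ (i j))| ≤
        C ^ k * ∑ j, W (z * (b : ℝ) ^ (i j)) := by
      intro z
      have h2 := abs_prod_sub univ (fun j => g (z * (b : ℝ) ^ (i j)))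
        (fun j => G (z * (b : ℝ) ^ (i j))) C hC (fun _ _ => hgC _) (fun _ _ => hGC _)
      rw [card_univ, Fintype.card_fin] at h2
      refine h2.trans ?_
      apply mul_le_mul_of_nonneg_left _ (by positivity)
      exact sum_le_sum fun j _ => hgG _
    refine (avg_mono h1).trans ?_
    rw [avg_mul, avg_sum]
    apply mul_le_mul_of_nonneg_left _ (by positivity)
    have h3 : ∀ j ∈ (univ : Finset (Fin k)), avg M Z (fun z => W (z * (b : ℝ) ^ (i j))) ≤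
        w + ρ * R := by
      intro j _
      have h4 := (abs_le.1 (avg_TP hk hb hW (i j) (hi j) M Z ρ hM hρ hgood)).2
      linarith
    refine (sum_le_sum h3).trans ?_
    rw [sum_const, card_univ, Fintype.card_fin, nsmul_eq_mul]
  have k1 := key M Z hM h
  have k2 := key M' Z' hM' h'
  have v1 := hV M Z ρ hM hρ h
  have v2 := hV M' Z' ρ hM' hρ h'
  have v3 : |avg M Z (fun z => ∏ j, G (z * (b : ℝ) ^ (i j))) -
      avg M' Z' (fun z => ∏ j, G (z * (b : ℝ) ^ (i j)))| ≤ 2 * (ρ * R ^ k) := by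
    rw [← Real.norm_eq_abs, ← Complex.norm_real]
    push_cast
    have e1 : ((avg M Z (fun z => ∏ j, G (z * (b : ℝ) ^ (i j))) : ℝ) : ℂ) -
        ((avg M' Z' (fun z => ∏ j, G (z * (b : ℝ) ^ (i j))) : ℝ) : ℂ) =
        (((avg M Z (fun z => ∏ j, G (z * (b : ℝ) ^ (i j))) : ℝ) : ℂ) - V) -
        (((avg M' Z' (fun z => ∏ j, G (z * (b : ℝ) ^ (i j))) : ℝ) : ℂ) - V) := by ring
    rw [e1]
    refine (norm_sub_le _ _).trans ?_
    linarith
  rw [abs_le] at k1 k2 v3 ⊢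
  constructor <;> linarith [k1.1, k1.2, k2.1, k2.2, v3.1, v3.2]

/-- the moments of `∑_{i < N} g (z b ^ i)` are almost the same for all good sets of points -/
lemma avg_moment {b K k N : ℕ} (hb : 1 ≤ b) (hk : 1 ≤ k) {R C w : ℝ} {g : ℝ → ℝ}
    (hg : Approx K R C w g) (hC : 1 ≤ C) (M M' : ℕ) (Z Z' : ℕ → ℝ) (ρ : ℝ) (hM : 0 < M)
    (hM' : 0 < M') (hρ : 0 ≤ ρ) (h : Good b K k N M Z ρ) (h' : Good b K k N M' Z' ρ) :
    |avg M Z (fun z => (∑ i ∈ range N, g (z * (b : ℝ) ^ i)) ^ k) -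
      avg M' Z' (fun z => (∑ i ∈ range N, g (z * (b : ℝ) ^ i)) ^ k)| ≤
        (N : ℝ) ^ k * (2 * (C ^ k * (k * (w + ρ * R))) + 2 * (ρ * R ^ k)) := by
  classical
  have h1 : ∀ z, (∑ i ∈ range N, g (z * (b : ℝ) ^ i)) ^ k =
      ∑ p ∈ Fintype.piFinset (fun _ : Fin k => range N), ∏ j, g (z * (b : ℝ) ^ (p j)) := by
    intro z
    rw [← prod_univ_sum (fun _ : Fin k => range N) (fun _ i => g (z * (b : ℝ) ^ i))]
    simp
  simp_rw [h1, avg_sum]
  rw [← sum_sub_distrib]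
  refine (abs_sum_le_sum_abs _ _).trans ?_
  have h2 : ∀ p ∈ Fintype.piFinset (fun _ : Fin k => range N),
      |avg M Z (fun z => ∏ j, g (z * (b : ℝ) ^ (p j))) -
        avg M' Z' (fun z => ∏ j, g (z * (b : ℝ) ^ (p j)))| ≤
        2 * (C ^ k * (k * (w + ρ * R))) + 2 * (ρ * R ^ k) := by
    intro p hp
    refine avg_prod hb hk hg hC p (fun j => ?_) M M' Z Z' ρ hM hM' hρ h h'
    have := (Fintype.mem_piFinset.1 hp) j
    rw [mem_range] at this
    omega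
  refine (sum_le_sum h2).trans (le_of_eq ?_)
  rw [sum_const, Fintype.card_piFinset, nsmul_eq_mul]
  simp

end Pool.Agent.R485.Mult
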