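import Mathlib

/-!
# The number of solutions of `± b ^ p_1 ± ⋯ ± b ^ p_(2s) = 0`
-/

set_option autoImplicit false

namespace Pool.Agent.R485.Mult

open Finset

/-- every exponent of a vanishing sum is near to another one -/
lemma near (b : ℕ) (hb : 2 ≤ b) (D : ℕ) (σ : Fin D → ℤ) (hσ : ∀ j, |σ j| = 1) (p : Fin D → ℕ)
    (h0 : ∑ j, σ j * (b : ℤ) ^ (p j) = 0) (j : Fin D) :
    ∃ l, l ≠ j ∧ p j ≤ p l + D ∧ p l ≤ p j + D := by
  classical
  by_contra hcon
  push Not at hcon
  have hbZ : (0 : ℤ) < b := by omega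
  have hb1 : (1 : ℤ) ≤ b := by omega
  set u := p j with hu
  set A := univ.filter (fun l => p l < u) with hA
  set B := univ.filter (fun l => u < p l) with hB
  have hsplit : (univ : Finset (Fin D)) = insert j (A ∪ B) := by
    ext l
    simp only [mem_univ, mem_insert, mem_union, hA, hB, mem_filter, true_and, true_iff]
    by_cases hl : l = j
    · exact Or.inl hl
    · have := hcon l hl
      rcases lt_trichotomy (p l) u with h | h | h
      · exact Or.inr (Or.inl h)
      · exfalso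
        have := this (by omega)
        omega
      · exact Or.inr (Or.inr h)
  have hdisj : Disjoint A B := by
    rw [disjoint_left]
    intro l h1 h2
    simp only [hA, hB, mem_filter, mem_univ, true_and] at h1 h2
    omega
  have hj : j ∉ A ∪ B := by
    simp only [hA, hB, mem_union, mem_filter, mem_univ, true_and]
    omega
  rw [hsplit, sum_insert hj, sum_union hdisj] at h0
  have hpA : ∀ l ∈ A, p l + D + 1 ≤ u := by
    intro l hl
    simp only [hA, mem_filter, mem_univ, true_and] at hl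
    by_contra h
    have hne : l ≠ j := by rintro rfl; omega
    have := hcon l hne (by omega)
    omega
  have hpB : ∀ l ∈ B, u + D + 1 ≤ p l := by
    intro l hl
    simp only [hB, mem_filter, mem_univ, true_and] at hl
    have hne : l ≠ j := by rintro rfl; omega
    have := hcon l hne (by omega)
    omega
  -- the lower part is small
  have hSA : |∑ l ∈ A, σ l * (b : ℤ) ^ (p l)| < (b : ℤ) ^ u := by
    have h1 : |∑ l ∈ A, σ l * (b : ℤ) ^ (p l)| ≤ ∑ l ∈ A, (b : ℤ) ^ (p l) := by
      refine (abs_sum_le_sum_abs _ _).trans (sum_le_sum fun l _ => ?_)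
      rw [abs_mul, hσ, one_mul, abs_of_pos (pow_pos hbZ _)]
    refine lt_of_le_of_lt h1 ?_
    have h2 : (b : ℤ) ^ (D + 1) * ∑ l ∈ A, (b : ℤ) ^ (p l) ≤ D * (b : ℤ) ^ u := by
      rw [mul_sum]
      calc ∑ l ∈ A, (b : ℤ) ^ (D + 1) * (b : ℤ) ^ (p l) ≤ ∑ l ∈ A, (b : ℤ) ^ u := by
            refine sum_le_sum fun l hl => ?_
            rw [← pow_add]
            exact pow_le_pow_right₀ hb1 (by have := hpA l hl; omega)
        _ = A.card * (b : ℤ) ^ u := by rw [sum_const, nsmul_eq_mul]
        _ ≤ D * (b : ℤ) ^ u := by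
            apply mul_le_mul_of_nonneg_right _ (by positivity)
            have : A.card ≤ D := (card_le_univ A).trans (by simp)
            exact_mod_cast this
    have h3 : (D : ℤ) < (b : ℤ) ^ (D + 1) := by
      have h4 : D < b ^ (D + 1) :=
        lt_of_lt_of_le (Nat.lt_succ_self D) (Nat.lt_pow_self (by omega : 1 < b)).le
      exact_mod_cast h4
    have h5 : (b : ℤ) ^ (D + 1) * ∑ l ∈ A, (b : ℤ) ^ (p l) < (b : ℤ) ^ (D + 1) * (b : ℤ) ^ u :=
      lt_of_le_of_lt h2 (mul_lt_mul_of_pos_right h3 (by positivity))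
    exact lt_of_mul_lt_mul_left h5 (by positivity)
  -- the upper part is divisible
  have hdvd : (b : ℤ) ^ (u + 1) ∣ ∑ l ∈ B, σ l * (b : ℤ) ^ (p l) := by
    refine dvd_sum fun l hl => dvd_mul_of_dvd_right (pow_dvd_pow _ ?_) _
    have := hpB l hl
    omega
  set SA := ∑ l ∈ A, σ l * (b : ℤ) ^ (p l)
  have hT : (b : ℤ) ^ (u + 1) ∣ σ j * (b : ℤ) ^ u + SA := by
    have : σ j * (b : ℤ) ^ u + SA = -∑ l ∈ B, σ l * (b : ℤ) ^ (p l) := by linarith
    rw [this]
    exact (dvd_neg).2 hdvd
  have hσj : |σ j * (b : ℤ) ^ u| = (b : ℤ) ^ u := by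
    rw [abs_mul, hσ, one_mul, abs_of_pos (pow_pos hbZ _)]
  have hlt : |σ j * (b : ℤ) ^ u + SA| < (b : ℤ) ^ (u + 1) := by
    refine lt_of_le_of_lt (abs_add_le _ _) ?_
    rw [hσj, pow_succ]
    have : (b : ℤ) ^ u * 2 ≤ (b : ℤ) ^ u * b := by
      apply mul_le_mul_of_nonneg_left _ (by positivity)
      exact_mod_cast hb
    linarith
  have hz := Int.eq_zero_of_abs_lt_dvd hT hlt
  have : σ j * (b : ℤ) ^ u = -SA := by linarith
  rw [this, abs_neg] at hσj
  linarith

/-- Ore's theorem: a graph without isolated vertices has a dominating set with at most half of the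
vertices -/
lemma ore (D : ℕ) (R : Fin D → Fin D → Prop) (hr : ∀ j, R j j) (hs : ∀ j l, R j l → R l j)
    (h : ∀ j, ∃ l, l ≠ j ∧ R j l) :
    ∃ S : Finset (Fin D), 2 * S.card ≤ D ∧ ∀ j, ∃ l ∈ S, R j l := by
  classical
  set F : Finset (Finset (Fin D)) := univ.filter (fun S => ∀ j, ∃ l ∈ S, R j l) with hF
  have hne : F.Nonempty := ⟨univ, by
    rw [hF, mem_filter]
    exact ⟨mem_univ _, fun j => ⟨j, mem_univ _, hr j⟩⟩⟩
  obtain ⟨S, hS, hmin⟩ := F.exists_min_image card hne
  rw [hF, mem_filter] at hS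
  have hc : Sᶜ ∈ F := by
    rw [hF, mem_filter]
    refine ⟨mem_univ _, fun v => ?_⟩
    by_contra hcon
    push Not at hcon
    have hv : v ∈ S := by
      by_contra hv
      exact hcon v (mem_compl.2 hv) (hr v)
    have hcon' : ∀ l, R v l → l ∈ S := by
      intro l hl
      by_contra hlS
      exact hcon l (mem_compl.2 hlS) hl
    obtain ⟨l0, hl0, hl1⟩ := h v
    have hmem : S.erase v ∈ F := by
      rw [hF, mem_filter]
      refine ⟨mem_univ _, fun j => ?_⟩
      obtain ⟨l, hl, hjl⟩ := hS.2 j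
      by_cases hlv : l = v
      · subst hlv
        by_cases hjv : j = l
        · subst hjv
          exact ⟨l0, mem_erase.2 ⟨hl0, hcon' l0 hl1⟩, hl1⟩
        · exact ⟨j, mem_erase.2 ⟨hjv, hcon' j (hs _ _ hjl)⟩, hr j⟩
      · exact ⟨l, mem_erase.2 ⟨hlv, hl⟩, hjl⟩
    have h1 := hmin _ hmem
    rw [card_erase_of_mem hv] at h1
    have : 0 < S.card := card_pos.2 ⟨v, hv⟩
    omega
  have h1 := hmin _ hc
  rw [card_compl, Fintype.card_fin] at h1
  exact ⟨S, by omega, hS.2⟩

/-- the number of vanishing sums -/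
theorem count_vanish (b : ℕ) (hb : 2 ≤ b) (s : ℕ) (hs : 1 ≤ s) (σ : Fin (2 * s) → ℤ)
    (hσ : ∀ j, |σ j| = 1) (N : ℕ) :
    ((Fintype.piFinset (fun _ : Fin (2 * s) => Icc 1 N)).filter
      (fun p => ∑ j, σ j * (b : ℤ) ^ (p j) = 0)).card ≤
      s ^ (2 * s) * (2 * (2 * s) + 1) ^ (2 * s) * N ^ s := by
  classical
  set Φ : (Fin s → ℕ) × (Fin (2 * s) → Fin s) × (Fin (2 * s) → ℕ) → (Fin (2 * s) → ℕ) :=
    fun t j => t.1 (t.2.1 j) + t.2.2 j - 2 * s with hΦ
  have hsub : ((Fintype.piFinset (fun _ : Fin (2 * s) => Icc 1 N)).filter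
      (fun p => ∑ j, σ j * (b : ℤ) ^ (p j) = 0)) ⊆
      ((Fintype.piFinset (fun _ : Fin s => Icc 1 N)) ×ˢ
        ((univ : Finset (Fin (2 * s) → Fin s)) ×ˢ
          (Fintype.piFinset (fun _ : Fin (2 * s) => range (2 * (2 * s) + 1))))).image Φ := by
    intro p hp
    rw [mem_filter, Fintype.mem_piFinset] at hp
    obtain ⟨hp1, hp2⟩ := hp
    obtain ⟨S, hS, hdom⟩ := ore (2 * s) (fun j l => p j ≤ p l + 2 * s ∧ p l ≤ p j + 2 * s)
      (fun j => ⟨by omega, by omega⟩) (fun j l h => ⟨h.2, h.1⟩)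
      (fun j => near b hb (2 * s) σ hσ p hp2 j)
    have hj0 : (0 : ℕ) < 2 * s := by omega
    have : Nonempty S := by
      obtain ⟨l, hl, -⟩ := hdom ⟨0, hj0⟩
      exact ⟨⟨l, hl⟩⟩
    have hcard : Fintype.card S ≤ Fintype.card (Fin s) := by
      rw [Fintype.card_coe, Fintype.card_fin]; omega
    obtain ⟨g⟩ := Function.Embedding.nonempty_of_card_le hcard
    set ρ : Fin s → Fin (2 * s) := fun i => (Function.invFun g i : S) with hρ
    have hρg : ∀ l : S, ρ (g l) = l := by
      intro l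
      rw [hρ]
      simp only
      rw [Function.leftInverse_invFun g.injective l]
    choose c hc1 hc2 using hdom
    rw [mem_image]
    refine ⟨⟨fun i => p (ρ i), fun j => g ⟨c j, hc1 j⟩, fun j => p j + 2 * s - p (c j)⟩, ?_, ?_⟩
    · rw [mem_product, mem_product]
      refine ⟨?_, mem_univ _, ?_⟩
      · rw [Fintype.mem_piFinset]
        intro i
        exact hp1 _
      · rw [Fintype.mem_piFinset]
        intro j
        rw [mem_range]
        have := hc2 j
        simp only
        omega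
    · funext j
      rw [hΦ]
      simp only
      rw [hρg]
      simp only
      have := hc2 j
      omega
  refine (card_le_card hsub).trans (card_image_le.trans (le_of_eq ?_))
  rw [card_product, card_product, Fintype.card_piFinset, Fintype.card_piFinset, card_univ,
    Fintype.card_pi]
  simp only [Nat.card_Icc, Nat.add_sub_cancel, prod_const, card_univ, Fintype.card_fin,
    card_range]
  ring

end Pool.Agent.R485.Mult
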