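import Pool.Agent.H648R2.S.Merge
import Pool.Agent.W565.MOFS

/-!
# Exponential sums over the multiples of an algebraic irrational number
-/

set_option autoImplicit false

namespace Pool.Agent.R485.Mult

open Finset Filter Topology
open Pool.Agent.H469R2.NK (e norm_e e_add e_zero conj_e)

/-- the subspace theorem for sums of powers of `b`, with all exponents at most `N` -/
theorem dioph (b : ℕ) (hb : 2 ≤ b) (x : ℝ) (hx : IsAlgebraic ℚ x) (hirr : Irrational x) (D : ℕ)
    (ε : ℝ) (hε : 0 < ε) :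
    ∃ κ : ℝ, 0 < κ ∧ ∃ N0 : ℕ, ∀ N : ℕ, N0 ≤ N → ∀ k : Fin D → ℕ, (∀ i, k i ≤ N) →
      ∀ lam : Fin D → ℤ, (∀ j, |(lam j : ℝ)| ≤ Real.exp (κ * N)) →
      ∑ j, lam j * (b : ℤ) ^ (k j) ≠ 0 →
      ∀ P : ℤ, Real.exp (-(ε * N)) < |x * ∑ j, (lam j : ℝ) * (b : ℝ) ^ (k j) - P| := by
  have hbR : (2 : ℝ) ≤ b := by exact_mod_cast hb
  have hb0 : (0 : ℝ) < b := by linarith
  have hlogb : 0 < Real.log b := Real.log_pos (by linarith)
  set a : ℝ := ε / (4 * Real.log b) with ha
  have ha0 : 0 < a := by positivity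
  set δ : ℝ := a / (1 + a) with hδd
  have hδ : 0 < δ := by positivity
  have hδ1 : δ ≤ 1 := by
    rw [hδd, div_le_one (by positivity)]
    linarith
  obtain ⟨ε', hε', L0, h⟩ := Pool.Agent.H648R2.S.merge b hb x hx hirr D δ hδ
  refine ⟨ε' * (a * Real.log b), by positivity, max ⌈(L0 : ℝ) / a⌉₊ ⌈1 / a⌉₊, ?_⟩
  intro N hN k hk lam hlam hne P
  have hN1 : (L0 : ℝ) ≤ a * N := by
    have h1 : (L0 : ℝ) / a ≤ N := (Nat.le_ceil _).trans (by exact_mod_cast (le_max_left _ _).trans hN)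
    rw [div_le_iff₀ ha0] at h1
    linarith
  have hN2 : 1 ≤ a * N := by
    have h1 : (1 : ℝ) / a ≤ N := (Nat.le_ceil _).trans (by exact_mod_cast (le_max_right _ _).trans hN)
    rw [div_le_iff₀ ha0] at h1
    linarith
  set L : ℕ := ⌈a * N⌉₊ with hL
  have hL1 : a * N ≤ L := Nat.le_ceil _
  have hL2 : (L : ℝ) ≤ 2 * (a * N) := by
    have := Nat.ceil_lt_add_one (show 0 ≤ a * N by linarith)
    linarith
  have hL3 : L0 ≤ L := by exact_mod_cast hN1.trans hL1
  have h1 := h L hL3 (fun i => k i + L) (fun i => Nat.le_add_left _ _) (by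
    intro i
    have h2 : (k i : ℝ) ≤ N := by exact_mod_cast hk i
    rw [hδd, div_mul_eq_mul_div, div_le_iff₀ (by positivity)]
    push_cast
    nlinarith) lam (by
    intro j
    refine (hlam j).trans (Real.exp_le_exp.2 ?_)
    have : a * N * (ε' * Real.log b) ≤ L * (ε' * Real.log b) :=
      mul_le_mul_of_nonneg_right hL1 (by positivity)
    nlinarith) (by
    have h2 : ∑ j, lam j * (b : ℤ) ^ (k j + L) = (∑ j, lam j * (b : ℤ) ^ (k j)) * (b : ℤ) ^ L := by
      rw [sum_mul]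
      exact sum_congr rfl fun j _ => by ring
    rw [h2]
    exact mul_ne_zero hne (pow_ne_zero _ (by omega))) (P * (b : ℤ) ^ L)
  have h2 : x * ∑ j, (lam j : ℝ) * (b : ℝ) ^ (k j + L) - ((P * (b : ℤ) ^ L : ℤ) : ℝ) =
      (x * ∑ j, (lam j : ℝ) * (b : ℝ) ^ (k j) - P) * (b : ℝ) ^ L := by
    have h3 : ∑ j, (lam j : ℝ) * (b : ℝ) ^ (k j + L) =
        (∑ j, (lam j : ℝ) * (b : ℝ) ^ (k j)) * (b : ℝ) ^ L := by
      rw [sum_mul]
      exact sum_congr rfl fun j _ => by ring
    rw [h3]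
    push_cast
    ring
  rw [h2, abs_mul, abs_of_pos (pow_pos hb0 L)] at h1
  have h4 : (b : ℝ) ^ L = Real.exp (L * Real.log b) := by
    rw [Real.exp_nat_mul, Real.exp_log hb0]
  rw [h4] at h1
  have h5 : Real.exp (-(δ * (L * Real.log b))) * Real.exp (-(L * Real.log b)) <
      |x * ∑ j, (lam j : ℝ) * (b : ℝ) ^ (k j) - P| := by
    have h6 := mul_lt_mul_of_pos_right h1 (Real.exp_pos (-(L * Real.log b)))
    have e1 : ∀ z : ℝ, z * Real.exp (L * Real.log b) * Real.exp (-(L * Real.log b)) = z := by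
      intro z
      rw [mul_assoc, ← Real.exp_add, add_neg_cancel, Real.exp_zero, mul_one]
    rw [e1] at h6
    exact h6
  refine lt_of_le_of_lt ?_ h5
  rw [← Real.exp_add]
  apply Real.exp_le_exp.2
  have h7 : (L : ℝ) * Real.log b ≤ 2 * (a * N) * Real.log b :=
    mul_le_mul_of_nonneg_right hL2 hlogb.le
  have h8 : 2 * (a * N) * Real.log b * 2 = ε * N := by
    rw [ha]
    field_simp
    ring
  have h9 : 0 ≤ (L : ℝ) * Real.log b := by positivity
  nlinarith

lemma e_intCast (k : ℤ) : e (k : ℝ) = 1 := by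
  unfold e
  rw [Complex.exp_eq_one_iff]
  exact ⟨k, by push_cast; ring⟩

lemma e_natmul (n : ℕ) (t : ℝ) : e (n * t) = e t ^ n := by
  induction n with
  | zero => simp [e_zero]
  | succ n ih =>
    rw [pow_succ, ← ih, ← e_add]
    congr 1
    push_cast
    ring

lemma norm_e_sub_one_ge (t η : ℝ) (hη : 0 ≤ η) (h : ∀ P : ℤ, η < |t - P|) : η ≤ ‖e t - 1‖ := by
  have h1 : e t = Complex.exp (Complex.I * ((2 * Real.pi * t : ℝ) : ℂ)) := by
    unfold e; rw [mul_comm]
  have h2 : ‖e t - 1‖ = 2 * |Real.sin (Real.pi * t)| := by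
    rw [h1, Complex.norm_exp_I_mul_ofReal_sub_one]
    rw [show 2 * Real.pi * t / 2 = Real.pi * t by ring]
    rw [norm_mul, Real.norm_eq_abs, Real.norm_eq_abs, abs_of_pos (by norm_num : (0 : ℝ) < 2)]
  rw [h2]
  set u : ℝ := t - round t with hu
  have hu1 : |u| ≤ 1 / 2 := abs_sub_round t
  have hu2 : η < |u| := h (round t)
  have h3 : |Real.sin (Real.pi * t)| = |Real.sin (Real.pi * u)| := by
    have : Real.pi * t = Real.pi * u + (round t : ℤ) * Real.pi := by rw [hu]; ring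
    rw [this]
    rw [Real.sin_add_int_mul_pi, abs_mul]
    rw [abs_zpow, abs_neg, abs_one, one_zpow, one_mul]
  rw [h3]
  have hpi := Real.pi_pos
  have hpi3 := Real.pi_gt_three
  have h4 : |Real.sin (Real.pi * u)| = Real.sin (Real.pi * |u|) := by
    rcases le_total 0 u with hu0 | hu0
    · rw [abs_of_nonneg hu0, abs_of_nonneg]
      apply Real.sin_nonneg_of_nonneg_of_le_pi (by positivity)
      rw [abs_of_nonneg hu0] at hu1
      nlinarith
    · rw [abs_of_nonpos hu0]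
      rw [show Real.pi * -u = -(Real.pi * u) by ring, Real.sin_neg]
      rw [abs_of_nonpos]
      apply Real.sin_nonpos_of_nonpos_of_neg_pi_le
      · nlinarith
      · rw [abs_of_nonpos hu0] at hu1
        nlinarith
  rw [h4]
  have h5 : 2 / Real.pi * (Real.pi * |u|) ≤ Real.sin (Real.pi * |u|) :=
    Real.mul_le_sin (by positivity) (by nlinarith)
  have h6 : 2 / Real.pi * (Real.pi * |u|) = 2 * |u| := by field_simp
  rw [h6] at h5
  linarith

/-- a geometric sum over an interval of integers -/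
lemma geom (t η : ℝ) (hη : 0 < η) (h : ∀ P : ℤ, η < |t - P|) (y : ℝ) (J : ℤ) (M : ℕ) :
    ‖∑ m ∈ range M, e (y + (J + m) * t)‖ ≤ 2 / η := by
  have h1 : ∀ m : ℕ, e (y + (J + m) * t) = e (y + J * t) * e t ^ m := by
    intro m
    rw [← e_natmul, ← e_add]
    congr 1
    ring
  simp_rw [h1]
  rw [← mul_sum, norm_mul, norm_e, one_mul]
  have h2 := norm_e_sub_one_ge t η hη.le h
  have h3 : e t ≠ 1 := by
    intro h4
    rw [h4, sub_self, norm_zero] at h2
    linarith
  rw [geom_sum_eq h3, norm_div]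
  have h4 : ‖e t ^ M - 1‖ ≤ 2 := by
    refine (norm_sub_le _ _).trans ?_
    rw [norm_pow, norm_e, one_pow, norm_one]
    norm_num
  calc ‖e t ^ M - 1‖ / ‖e t - 1‖ ≤ 2 / ‖e t - 1‖ := by gcongr
    _ ≤ 2 / η := by
      apply div_le_div_of_nonneg_left (by norm_num) hη h2

end Pool.Agent.R485.Mult
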