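import Pool.Agent.R485.Mult.Moment

/-!
# The discrepancy of the multiples of an algebraic irrational number
-/

set_option autoImplicit false

namespace Pool.Agent.R485.Mult

open Finset Filter Topology
open Pool.Agent.H469R2.NK (e norm_e e_add e_zero conj_e)

/-- the deviation is bounded by exponential sums -/
lemma dev_bound (t : ℕ → ℝ) (n N : ℕ) (hn : n ≤ N) (hN : 1 ≤ N) (T : ℝ)
    (hT : ∀ h : ℕ, 1 ≤ h → h ≤ N → ‖∑ i ∈ Icc 1 n, e (h * t i)‖ ≤ T) (α β : ℝ) (h0 : 0 ≤ α)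
    (h1 : α < β) (h2 : β ≤ 1) :
    |(((Icc 1 n).filter (fun i : ℕ => α ≤ Int.fract (t i) ∧ Int.fract (t i) < β)).card : ℝ) -
      (β - α) * n| ≤ 2 * (T * (1 + Real.log N) + 2 * Real.sqrt N) := by
  classical
  have hNR : (1 : ℝ) ≤ N := by exact_mod_cast hN
  have hN0 : (0 : ℝ) < N := by linarith
  have hT0 : 0 ≤ T := (norm_nonneg _).trans (hT 1 le_rfl hN)
  have hsq : (1 : ℝ) ≤ Real.sqrt N := by
    rw [show (1 : ℝ) = Real.sqrt 1 by simp]
    exact Real.sqrt_le_sqrt hNR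
  have hsq2 : Real.sqrt N * Real.sqrt N = N := Real.mul_self_sqrt hN0.le
  have hharm : ∑ h ∈ Icc 1 N, (1 : ℝ) / h ≤ 1 + Real.log N := by
    have h3 := harmonic_le_one_add_log N
    rw [harmonic_eq_sum_Icc] at h3
    push_cast at h3
    refine le_trans (le_of_eq ?_) h3
    exact sum_congr rfl fun h _ => by rw [one_div]
  have key : ∀ γ : ℝ, |∑ i ∈ Icc 1 n, (Int.fract (t i - γ) - 1 / 2)| ≤
      T * (1 + Real.log N) + 2 * Real.sqrt N := by
    intro γ
    have h3 := saw_bound (Icc 1 n) (fun i => t i - γ) N hN (1 / Real.sqrt N) (by positivity)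
      (by rw [div_le_one (by positivity)]; exact hsq)
    refine h3.trans ?_
    have h4 : ∀ h ∈ Icc 1 N, ‖∑ i ∈ Icc 1 n, e (h * (t i - γ))‖ / h ≤ T * (1 / h) := by
      intro h hh
      rw [mem_Icc] at hh
      have h5 : ∑ i ∈ Icc 1 n, e (h * (t i - γ)) = e (-(h * γ)) * ∑ i ∈ Icc 1 n, e (h * t i) := by
        rw [mul_sum]
        refine sum_congr rfl fun i _ => ?_
        rw [← e_add]
        congr 1
        ring
      rw [h5, norm_mul, norm_e, one_mul, mul_one_div]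
      gcongr
      exact hT h hh.1 hh.2
    have h6 : ∑ h ∈ Icc 1 N, ‖∑ i ∈ Icc 1 n, e (h * (t i - γ))‖ / h ≤ T * (1 + Real.log N) := by
      refine (sum_le_sum h4).trans ?_
      rw [← mul_sum]
      exact mul_le_mul_of_nonneg_left hharm hT0
    have hc : (((Icc 1 n).card : ℕ) : ℝ) ≤ N := by
      rw [Nat.card_Icc]
      exact_mod_cast (by omega : n + 1 - 1 ≤ N)
    have h7 : (((Icc 1 n).card : ℕ) : ℝ) / (N * (1 / Real.sqrt N)) ≤ Real.sqrt N := by
      have : (N : ℝ) * (1 / Real.sqrt N) = Real.sqrt N := by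
        field_simp
        nlinarith
      rw [this, div_le_iff₀ (by positivity), hsq2]
      exact hc
    have h8 : (((Icc 1 n).card : ℕ) : ℝ) * (1 / Real.sqrt N) ≤ Real.sqrt N := by
      rw [mul_one_div, div_le_iff₀ (by positivity), hsq2]
      exact hc
    linarith
  have h3 : (((Icc 1 n).filter (fun i : ℕ => α ≤ Int.fract (t i) ∧ Int.fract (t i) < β)).card : ℝ) -
      (β - α) * n = ∑ i ∈ Icc 1 n, (Int.fract (t i - β) - 1 / 2) -
        ∑ i ∈ Icc 1 n, (Int.fract (t i - α) - 1 / 2) := by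
    rw [← sum_sub_distrib]
    rw [← sum_congr rfl fun i _ => indicator_eq (t i) α β h0 h1 h2]
    rw [sum_sub_distrib, sum_const, card_filter]
    push_cast
    rw [Nat.card_Icc, Nat.add_sub_cancel, nsmul_eq_mul]
    ring
  rw [h3]
  refine (abs_sub _ _).trans ?_
  linarith [key α, key β]

/-- **The digits of the multiples of an algebraic irrational number.** -/
theorem main (x : ℝ) (hx : IsAlgebraic ℚ x) (hirr : Irrational x) (B : ℕ) (ε δ : ℝ) (hε : 0 < ε)
    (hδ : 0 < δ) (A : ℕ) :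
    ∃ N₀ : ℕ, ∀ N : ℕ, N₀ ≤ N → ∀ (y : ℝ) (J : ℤ) (M : ℕ), Real.exp (ε * N) ≤ M →
      ((({m : ℕ | m < M ∧ ¬ ∀ b : ℕ, 2 ≤ b → b ≤ B → ∀ n : ℕ, n ≤ N → ∀ α β : ℝ, 0 ≤ α →
        α < β → β ≤ 1 →
          |(((Icc 1 n).filter (fun i : ℕ => α ≤ Int.fract ((y + (J + m) * x) * (b : ℝ) ^ i) ∧
            Int.fract ((y + (J + m) * x) * (b : ℝ) ^ i) < β)).card : ℝ) - (β - α) * n| ≤
              (N : ℝ) ^ (1 / 2 + δ)}).ncard : ℕ) : ℝ) * N ^ A ≤ M := by
  classical
  set s : ℕ := max 1 ⌈((A : ℝ) + 3) / δ⌉₊ with hs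
  have hs1 : 1 ≤ s := le_max_left _ _
  have hsδ : (A : ℝ) + 3 ≤ s * δ := by
    have h0 : ⌈((A : ℝ) + 3) / δ⌉₊ ≤ s := le_max_right _ _
    have h1 : ((A : ℝ) + 3) / δ ≤ s := (Nat.le_ceil _).trans (Nat.cast_le.2 h0)
    rwa [div_le_iff₀ hδ] at h1
  have hmom : ∀ b : ℕ, ∃ N0 : ℕ, 2 ≤ b → ∀ N : ℕ, N0 ≤ N → ∀ (y : ℝ) (J : ℤ) (M h n : ℕ), 1 ≤ h →
      h ≤ N → n ≤ N →
      ∑ m ∈ range M, ‖∑ i ∈ Icc 1 n, e (h * (y + (J + m) * x) * (b : ℝ) ^ i)‖ ^ (2 * s) ≤
        M * (s ^ (2 * s) * (2 * (2 * s) + 1) ^ (2 * s) * N ^ s : ℕ) +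
          (N : ℝ) ^ (2 * s) * (2 * Real.exp (ε / 2 * N)) := by
    intro b
    by_cases hb : 2 ≤ b
    · obtain ⟨N0, h⟩ := moment b hb x hx hirr s hs1 (ε / 2) (by positivity)
      exact ⟨N0, fun _ => h⟩
    · exact ⟨0, fun h => absurd h hb⟩
  choose N1 hN1 using hmom
  set C : ℕ := s ^ (2 * s) * (2 * (2 * s) + 1) ^ (2 * s) + 1 with hC
  -- largeness conditions
  have hl1 : ∀ᶠ N : ℕ in atTop, 2 * (N : ℝ) ^ s ≤ Real.exp (ε / 2 * N) := by
    have h1 : Tendsto (fun u : ℝ => Real.exp u / u ^ s) atTop atTop := Real.tendsto_exp_div_pow_atTop s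
    have h2 : Tendsto (fun N : ℕ => ε / 2 * (N : ℝ)) atTop atTop :=
      tendsto_natCast_atTop_atTop.const_mul_atTop (by positivity)
    filter_upwards [(h1.comp h2).eventually_ge_atTop (2 / (ε / 2) ^ s), eventually_gt_atTop 0]
      with N hN hN0
    have hN0' : (0 : ℝ) < N := by exact_mod_cast hN0
    simp only [Function.comp] at hN
    rw [le_div_iff₀ (by positivity), mul_pow] at hN
    have : 2 / (ε / 2) ^ s * ((ε / 2) ^ s * (N : ℝ) ^ s) = 2 * (N : ℝ) ^ s := by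
      have : (ε / 2) ^ s ≠ 0 := by positivity
      field_simp
    linarith
  have hl2 : ∀ᶠ N : ℕ in atTop, 6 + 2 * Real.log N ≤ (N : ℝ) ^ (δ / 2) := by
    have h1 : (fun u : ℝ => 6 + 2 * Real.log u) =o[atTop] (fun u : ℝ => u ^ (δ / 2)) := by
      apply Asymptotics.IsLittleO.add
      · exact Asymptotics.isLittleO_const_left.2 (Or.inr (by
          refine tendsto_norm_atTop_atTop.comp (tendsto_rpow_atTop (by positivity))))
      · exact (isLittleO_log_rpow_atTop (by positivity)).const_mul_left 2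
    have h2 := (h1.comp_tendsto tendsto_natCast_atTop_atTop).bound (c := 1) one_pos
    filter_upwards [h2, eventually_ge_atTop 1] with N hN hN1
    simp only [Function.comp, Real.norm_eq_abs, one_mul] at hN
    have hN1' : (1 : ℝ) ≤ N := by exact_mod_cast hN1
    rw [abs_of_nonneg (a := (N : ℝ) ^ (δ / 2)) (by positivity)] at hN
    exact (le_abs_self _).trans hN
  obtain ⟨N2, hN2⟩ := eventually_atTop.1 (hl1.and hl2)
  refine ⟨max (max ((range (B + 1)).sup N1) N2) (max 1 (2 * B * C)), fun N hN y J M hM => ?_⟩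
  have hNa : (range (B + 1)).sup N1 ≤ N := ((le_max_left _ _).trans (le_max_left _ _)).trans hN
  obtain ⟨hNb, hNc⟩ := hN2 N (((le_max_right _ _).trans (le_max_left _ _)).trans hN)
  have hNd : 1 ≤ N := ((le_max_left _ _).trans (le_max_right _ _)).trans hN
  have hNe : 2 * B * C ≤ N := ((le_max_right _ _).trans (le_max_right _ _)).trans hN
  have hNR : (1 : ℝ) ≤ N := by exact_mod_cast hNd
  have hN0 : (0 : ℝ) < N := by linarith
  set T : ℝ := (N : ℝ) ^ (1 / 2 + δ / 2) with hTd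
  have hT0 : 0 < T := Real.rpow_pos_of_pos hN0 _
  have hTs : T ^ (2 * s) = (N : ℝ) ^ s * (N : ℝ) ^ (s * δ) := by
    rw [hTd, ← Real.rpow_natCast, ← Real.rpow_mul hN0.le, ← Real.rpow_natCast (N : ℝ) s,
      ← Real.rpow_add hN0]
    congr 1
    push_cast
    ring
  have hTs2 : (N : ℝ) ^ s * (N : ℝ) ^ (A + 3) ≤ T ^ (2 * s) := by
    rw [hTs]
    apply mul_le_mul_of_nonneg_left _ (by positivity)
    rw [← Real.rpow_natCast]
    apply Real.rpow_le_rpow_of_exponent_le hNR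
    push_cast
    exact hsδ
  have hM0 : (0 : ℝ) < M := lt_of_lt_of_le (Real.exp_pos _) hM
  -- the exceptional sets
  set S : ℕ → ℕ → ℕ → ℕ → ℂ := fun b h n m =>
    ∑ i ∈ Icc 1 n, e (h * (y + (J + m) * x) * (b : ℝ) ^ i) with hS
  set E : ℕ → ℕ → ℕ → Finset ℕ := fun b h n => (range M).filter (fun m => T < ‖S b h n m‖) with hE
  have hEc : ∀ b ∈ Icc 2 B, ∀ h ∈ Icc 1 N, ∀ n ∈ range (N + 1),
      ((E b h n).card : ℝ) ≤ M * C / N ^ (A + 3) := by
    intro b hb h hh n hn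
    rw [mem_Icc] at hb hh
    rw [mem_range] at hn
    have hb1 : N1 b ≤ N := (Finset.le_sup (f := N1) (mem_range.2 (by omega))).trans hNa
    have h1 := hN1 b hb.1 N hb1 y J M h n hh.1 hh.2 (by omega)
    have h2 : ((E b h n).card : ℝ) * T ^ (2 * s) ≤
        ∑ m ∈ range M, ‖∑ i ∈ Icc 1 n, e (h * (y + (J + m) * x) * (b : ℝ) ^ i)‖ ^ (2 * s) := by
      calc ((E b h n).card : ℝ) * T ^ (2 * s) = ∑ m ∈ E b h n, T ^ (2 * s) := by
            rw [sum_const, nsmul_eq_mul]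
        _ ≤ ∑ m ∈ E b h n, ‖S b h n m‖ ^ (2 * s) := by
            refine sum_le_sum fun m hm => ?_
            exact pow_le_pow_left₀ hT0.le (mem_filter.1 hm).2.le _
        _ ≤ ∑ m ∈ range M, ‖S b h n m‖ ^ (2 * s) :=
            sum_le_sum_of_subset_of_nonneg (filter_subset _ _) fun m _ _ => by positivity
    have h3 : (N : ℝ) ^ (2 * s) * (2 * Real.exp (ε / 2 * N)) ≤ M * N ^ s := by
      have e1 : Real.exp (ε * N) = Real.exp (ε / 2 * N) * Real.exp (ε / 2 * N) := by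
        rw [← Real.exp_add]
        congr 1
        ring
      have e2 : (N : ℝ) ^ (2 * s) = N ^ s * N ^ s := by ring
      have e3 : 2 * (N : ℝ) ^ s * Real.exp (ε / 2 * N) ≤ M := by
        refine le_trans ?_ hM
        rw [e1]
        exact mul_le_mul_of_nonneg_right hNb (Real.exp_pos _).le
      rw [e2]
      have := mul_le_mul_of_nonneg_left e3 (by positivity : (0 : ℝ) ≤ (N : ℝ) ^ s)
      linarith
    have h4 : ((E b h n).card : ℝ) * ((N : ℝ) ^ s * (N : ℝ) ^ (A + 3)) ≤ M * C * N ^ s := by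
      refine (mul_le_mul_of_nonneg_left hTs2 (Nat.cast_nonneg _)).trans (h2.trans (h1.trans ?_))
      rw [hC]
      push_cast
      push_cast at h3
      linarith
    rw [le_div_iff₀ (by positivity)]
    have h5 : ((E b h n).card : ℝ) * (N : ℝ) ^ (A + 3) * N ^ s ≤ M * C * N ^ s := by linarith
    exact le_of_mul_le_mul_right h5 (by positivity)
  set U : Finset ℕ := (Icc 2 B).biUnion fun b => (Icc 1 N).biUnion fun h =>
    (range (N + 1)).biUnion fun n => E b h n with hU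
  have hUc : (U.card : ℝ) ≤ B * (N * ((N + 1) * (M * C / N ^ (A + 3)))) := by
    have hq : 0 ≤ (M : ℝ) * C / N ^ (A + 3) := by positivity
    have h1 : ∀ b ∈ Icc 2 B, ∀ h ∈ Icc 1 N,
        ((((range (N + 1)).biUnion fun n => E b h n).card : ℕ) : ℝ) ≤
          (N + 1) * (M * C / N ^ (A + 3)) := by
      intro b hb h hh
      refine (Nat.cast_le.2 card_biUnion_le).trans ?_
      push_cast
      refine (sum_le_sum (hEc b hb h hh)).trans ?_
      rw [sum_const, card_range, nsmul_eq_mul]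
      push_cast
      exact le_rfl
    have h2 : ∀ b ∈ Icc 2 B, ((((Icc 1 N).biUnion fun h =>
        (range (N + 1)).biUnion fun n => E b h n).card : ℕ) : ℝ) ≤
          N * ((N + 1) * (M * C / N ^ (A + 3))) := by
      intro b hb
      refine (Nat.cast_le.2 card_biUnion_le).trans ?_
      push_cast
      refine (sum_le_sum (h1 b hb)).trans ?_
      rw [sum_const, Nat.card_Icc, nsmul_eq_mul, Nat.add_sub_cancel]
    refine (Nat.cast_le.2 card_biUnion_le).trans ?_
    push_cast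
    refine (sum_le_sum h2).trans ?_
    rw [sum_const, Nat.card_Icc, nsmul_eq_mul]
    apply mul_le_mul_of_nonneg_right _ (by positivity)
    exact_mod_cast (by omega : B + 1 - 2 ≤ B)
  have hfin : (U.card : ℝ) * N ^ A ≤ M := by
    have h1 : (B : ℝ) * (N * ((N + 1) * (M * C / N ^ (A + 3)))) * N ^ A =
        M * (B * C * (N + 1) / N ^ 2) := by
      field_simp
      ring
    have h2 : (B : ℝ) * C * (N + 1) / N ^ 2 ≤ 1 := by
      rw [div_le_one (by positivity)]
      have h3 : 2 * (B : ℝ) * C ≤ N := by exact_mod_cast hNe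
      have h4 : (0 : ℝ) ≤ B * C := by positivity
      nlinarith
    calc (U.card : ℝ) * N ^ A ≤ (B : ℝ) * (N * ((N + 1) * (M * C / N ^ (A + 3)))) * N ^ A := by
          exact mul_le_mul_of_nonneg_right hUc (by positivity)
      _ = M * (B * C * (N + 1) / N ^ 2) := h1
      _ ≤ M * 1 := mul_le_mul_of_nonneg_left h2 hM0.le
      _ = M := mul_one _
  refine le_trans ?_ hfin
  apply mul_le_mul_of_nonneg_right _ (by positivity)
  rw [← Set.ncard_coe_finset U]
  refine Nat.cast_le.2 (Set.ncard_le_ncard ?_ (finite_toSet U))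
  rintro m ⟨hm, hbad⟩
  rw [mem_coe]
  by_contra hmU
  apply hbad
  intro b hb2 hbB n hn α β h0 h1 h2
  have hT : ∀ h : ℕ, 1 ≤ h → h ≤ N → ‖∑ i ∈ Icc 1 n, e (h * ((y + (J + m) * x) * (b : ℝ) ^ i))‖ ≤ T := by
    intro h hh1 hh2
    by_contra hcon
    push Not at hcon
    apply hmU
    rw [hU, mem_biUnion]
    refine ⟨b, mem_Icc.2 ⟨hb2, hbB⟩, ?_⟩
    rw [mem_biUnion]
    refine ⟨h, mem_Icc.2 ⟨hh1, hh2⟩, ?_⟩
    rw [mem_biUnion]
    refine ⟨n, mem_range.2 (by omega), ?_⟩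
    rw [hE]
    simp only [mem_filter, mem_range]
    refine ⟨hm, ?_⟩
    rw [hS]
    simp only
    have : ∀ i : ℕ, (h : ℝ) * ((y + (J + m) * x) * (b : ℝ) ^ i) =
        h * (y + (J + m) * x) * (b : ℝ) ^ i := fun i => by ring
    simp_rw [this] at hcon
    exact hcon
  have h5 := dev_bound (fun i => (y + (J + m) * x) * (b : ℝ) ^ i) n N hn hNd T hT α β h0 h1 h2
  refine h5.trans ?_
  have h6 : Real.sqrt N ≤ T := by
    rw [Real.sqrt_eq_rpow, hTd]
    exact Real.rpow_le_rpow_of_exponent_le hNR (by linarith)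
  have h7 : (N : ℝ) ^ (1 / 2 + δ) = T * (N : ℝ) ^ (δ / 2) := by
    rw [hTd, ← Real.rpow_add hN0]
    congr 1
    ring
  rw [h7]
  have h8 := mul_le_mul_of_nonneg_left hNc hT0.le
  nlinarith

end Pool.Agent.R485.Mult
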