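import Pool.Agent.R485.Mult.CharFun

/-!
# Convergence of the characteristic functions
-/

set_option autoImplicit false

namespace Pool.Agent.R485.Mult

open Finset Filter Topology
open Pool.Agent.H469R2.NK (e norm_e e_add e_zero conj_e)

lemma good_alg (b : ℕ) (hb : 2 ≤ b) (x : ℝ) (hx : IsAlgebraic ℚ x) (hirr : Irrational x) (k : ℕ)
    (ε : ℝ) (hε : 0 < ε) :
    ∃ κ : ℝ, 0 < κ ∧ ∃ N0 : ℕ, ∀ N : ℕ, N0 ≤ N → ∀ K : ℕ, (K : ℝ) ≤ Real.exp (κ * N) →
      ∀ (y : ℝ) (J : ℤ) (M : ℕ), Real.exp (ε * N) ≤ M →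
        Good b K k N M (fun m => y + (J + m) * x) (2 * Real.exp (-(ε / 2 * N))) := by
  obtain ⟨κ, hκ, N0, h⟩ := dioph b hb x hx hirr k (ε / 2) (by positivity)
  refine ⟨κ, hκ, N0, fun N hN K hK y J M hM i hi l hl hne => ?_⟩
  have h1 := h N hN i hi l (fun j => by
    rw [← Int.cast_abs]
    refine le_trans ?_ hK
    exact_mod_cast hl j) hne
  set fr : ℤ := ∑ j, l j * (b : ℤ) ^ (i j) with hfr
  have e1 : ∑ j, (l j : ℝ) * (b : ℝ) ^ (i j) = (fr : ℝ) := by
    rw [hfr]; push_cast; rfl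
  rw [e1] at h1
  have h2 := geom (x * fr) (Real.exp (-(ε / 2 * N))) (Real.exp_pos _) h1 (y * fr) J M
  have h3 : ∀ m : ℕ, e (y * fr + (J + m) * (x * fr)) = e ((y + (J + m) * x) * (fr : ℝ)) := by
    intro m
    congr 1
    ring
  simp_rw [h3] at h2
  refine h2.trans ?_
  rw [Real.exp_neg, div_inv_eq_mul]
  have h4 : Real.exp (ε * N) = Real.exp (ε / 2 * N) * Real.exp (ε / 2 * N) := by
    rw [← Real.exp_add]
    congr 1
    ring
  have h5 : Real.exp (ε / 2 * N) ≠ 0 := (Real.exp_pos _).ne'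
  have h6 : 2 * (Real.exp (ε / 2 * N))⁻¹ * Real.exp (ε * N) = 2 * Real.exp (ε / 2 * N) := by
    rw [h4]
    field_simp
  rw [← h6]
  exact mul_le_mul_of_nonneg_left hM (by positivity)

/-- the error term -/
noncomputable def Del (b : ℕ) (F ε : ℝ) (A j N : ℕ) : ℝ :=
  (N : ℝ) ^ j * (2 * ((8 * b * F + 1) ^ j * (j * (6 * b * F * (1 / (N : ℝ) ^ A) +
    (2 * Real.exp (-(ε / 2 * N))) * (12 * b * F / (1 / (N : ℝ) ^ A))))) +
    2 * ((2 * Real.exp (-(ε / 2 * N))) * (12 * b * F / (1 / (N : ℝ) ^ A)) ^ j))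

lemma Del_tendsto (b : ℕ) (F ε : ℝ) (hε : 0 < ε) (A j : ℕ) (hj : j < A) :
    Tendsto (fun N => Del b F ε A j N) atTop (𝓝 0) := by
  have h1 := (pow_mul_inv_tendsto j A hj).const_mul (2 * ((8 * b * F + 1) ^ j * (j * (6 * b * F))))
  have h2 := (pow_mul_exp_tendsto (j + A) (ε / 2) (by positivity)).const_mul
    (2 * ((8 * b * F + 1) ^ j * (j * (2 * (12 * b * F)))))
  have h3 := (pow_mul_exp_tendsto (j + A * j) (ε / 2) (by positivity)).const_mul
    (2 * (2 * (12 * b * F) ^ j))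
  have h4 := (h1.add h2).add h3
  rw [mul_zero, mul_zero, mul_zero, add_zero, add_zero] at h4
  refine h4.congr fun N => ?_
  unfold Del
  rw [div_div_eq_mul_div, div_one]
  have h5 : (12 * (b : ℝ) * F * (N : ℝ) ^ A) ^ j = (12 * (b : ℝ) * F) ^ j * (N : ℝ) ^ (A * j) := by
    rw [mul_pow, pow_mul]
  rw [h5, pow_add, pow_add]
  ring

/-- the characteristic functions of the model converge -/
lemma model_tendsto (b : ℕ) (hb : 2 ≤ b) (f : ℕ → ℝ) (θ : ℝ) :
    Tendsto (fun N : ℕ => ((∑ d ∈ range b, Complex.exp (Complex.I * (θ / Real.sqrt N * vv b f d : ℝ)))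
      / b) ^ N) atTop
      (𝓝 (Complex.exp ((-(θ ^ 2 * ((∑ d ∈ range b, vv b f d ^ 2) / b) / 2) : ℝ) : ℂ))) := by
  have hb0 : (0 : ℝ) < b := by exact_mod_cast (by omega : 0 < b)
  have hbC : (b : ℂ) ≠ 0 := by exact_mod_cast (by omega : b ≠ 0)
  set σ : ℝ := (∑ d ∈ range b, vv b f d ^ 2) / b with hσ
  apply Complex.tendsto_pow_exp_of_isLittleO_sub_add_div
  set F : ℝ := ∑ a ∈ range b, |f a| with hF
  have hFa : ∀ a ∈ range b, |f a| ≤ F := fun a ha =>
    single_le_sum (f := fun a => |f a|) (fun i _ => abs_nonneg _) ha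
  have hF0 : 0 ≤ F := sum_nonneg fun i _ => abs_nonneg _
  set D : ℝ := (|θ| * (2 * F)) ^ 3 with hD
  have hD0 : 0 ≤ D := by positivity
  rw [Asymptotics.isLittleO_iff]
  intro c hc
  have hlim : ∀ᶠ N : ℕ in atTop, D / c ≤ Real.sqrt N :=
    (Real.tendsto_sqrt_atTop.comp tendsto_natCast_atTop_atTop).eventually_ge_atTop (D / c)
  filter_upwards [hlim, eventually_gt_atTop 0] with N hN hN0
  have hNR : (0 : ℝ) < N := by exact_mod_cast hN0
  have hNC : (N : ℂ) ≠ 0 := by exact_mod_cast hN0.ne'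
  have hs0 : 0 < Real.sqrt N := Real.sqrt_pos.2 hNR
  have hs2 : Real.sqrt N ^ 2 = N := Real.sq_sqrt hNR.le
  set u : ℕ → ℝ := fun d => θ / Real.sqrt N * vv b f d with hu
  have h1 : (∑ d ∈ range b, Complex.exp (Complex.I * (θ / Real.sqrt N * vv b f d : ℝ))) / (b : ℂ) -
      (1 + ((-(θ ^ 2 * σ / 2) : ℝ) : ℂ) / N) =
      (∑ d ∈ range b, (Complex.exp (Complex.I * (u d : ℝ)) -
        ∑ k ∈ range 3, (Complex.I * (u d : ℝ)) ^ k / (k.factorial : ℂ))) / b := by
    rw [sum_sub_distrib, sub_div]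
    congr 1
    have h2 : ∀ d : ℕ, ∑ k ∈ range 3, (Complex.I * ((u d : ℝ) : ℂ)) ^ k / (k.factorial : ℂ) =
        ((1 - u d ^ 2 / 2 : ℝ) : ℂ) + Complex.I * (u d : ℝ) := by
      intro d
      simp only [sum_range_succ, range_zero, sum_empty, pow_zero, pow_one, Nat.factorial]
      have : (Complex.I * ((u d : ℝ) : ℂ)) ^ 2 = -((u d : ℝ) : ℂ) ^ 2 := by
        rw [mul_pow, Complex.I_sq]; ring
      rw [this]
      push_cast
      ring
    simp_rw [h2]
    rw [sum_add_distrib, ← mul_sum, ← Complex.ofReal_sum, ← Complex.ofReal_sum]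
    have h3 : ∑ d ∈ range b, u d = 0 := by
      rw [hu]
      simp only
      rw [← mul_sum, sum_vv b hb, mul_zero]
    have h4 : ∑ d ∈ range b, (1 - u d ^ 2 / 2) = b * (1 + -(θ ^ 2 * σ / 2) / N) := by
      rw [sum_sub_distrib, sum_const, card_range, nsmul_eq_mul, ← sum_div]
      have h5 : ∑ d ∈ range b, u d ^ 2 = θ ^ 2 / N * ∑ d ∈ range b, vv b f d ^ 2 := by
        rw [mul_sum]
        refine sum_congr rfl fun d _ => ?_
        rw [hu]
        simp only
        rw [mul_pow, div_pow, hs2]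
      rw [h5, hσ]
      field_simp
      ring
    rw [h3, h4]
    push_cast
    field_simp
    ring
  rw [h1, norm_div, Complex.norm_natCast, norm_div, norm_one, Complex.norm_natCast,
    div_le_iff₀ hb0]
  have h6 : ∀ d ∈ range b, ‖Complex.exp (Complex.I * (u d : ℝ)) -
        ∑ k ∈ range 3, (Complex.I * (u d : ℝ)) ^ k / (k.factorial : ℂ)‖ ≤ D / (Real.sqrt N * N) := by
    intro d hd
    refine (taylor (u d) 3).trans ?_
    have h7 : |u d| ≤ |θ| * (2 * F) / Real.sqrt N := by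
      rw [hu]
      simp only
      rw [abs_mul, abs_div, abs_of_pos hs0, div_mul_eq_mul_div]
      gcongr
      exact abs_vv b hb f F hFa d hd
    have h8 : |u d| ^ 3 ≤ D / (Real.sqrt N * N) := by
      refine (pow_le_pow_left₀ (abs_nonneg _) h7 3).trans (le_of_eq ?_)
      rw [div_pow, hD]
      congr 1
      calc Real.sqrt N ^ 3 = Real.sqrt N * Real.sqrt N ^ 2 := by ring
        _ = Real.sqrt N * N := by rw [hs2]
    have h9 : ((3 : ℕ).factorial : ℝ) = 6 := by norm_num [Nat.factorial]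
    rw [h9]
    have h10 : 0 ≤ |u d| ^ 3 := by positivity
    linarith
  refine (norm_sum_le _ _).trans ((sum_le_sum h6).trans ?_)
  rw [sum_const, card_range, nsmul_eq_mul, mul_comm]
  apply mul_le_mul_of_nonneg_right _ hb0.le
  rw [div_le_iff₀ hc] at hN
  rw [div_le_iff₀ (by positivity)]
  have : c * (1 / (N : ℝ)) * (Real.sqrt N * N) = c * Real.sqrt N := by field_simp
  rw [this]
  linarith

/-- **Convergence of the characteristic functions.** -/
theorem char_lim (b : ℕ) (hb : 2 ≤ b) (x : ℝ) (hx : IsAlgebraic ℚ x) (hirr : Irrational x)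
    (f : ℕ → ℝ) (ε : ℝ) (hε : 0 < ε) (θ η : ℝ) (hη : 0 < η) :
    ∃ N0 : ℕ, ∀ N : ℕ, N0 ≤ N → ∀ (y : ℝ) (J : ℤ) (M : ℕ), Real.exp (ε * N) ≤ M →
      ‖cavg M (fun m => y + (J + m) * x)
        (fun z => Complex.exp (Complex.I * (θ / Real.sqrt N * SS b f N z : ℝ))) -
        Complex.exp ((-(θ ^ 2 * ((∑ d ∈ range b, vv b f d ^ 2) / b) / 2) : ℝ) : ℂ)‖ ≤ η := by
  classical
  have hb0 : (0 : ℝ) < b := by exact_mod_cast (by omega : 0 < b)
  set F : ℝ := ∑ a ∈ range b, |f a| with hF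
  have hFa : ∀ a ∈ range b, |f a| ≤ F := fun a ha =>
    single_le_sum (f := fun a => |f a|) (fun i _ => abs_nonneg _) ha
  have hF0 : 0 ≤ F := sum_nonneg fun i _ => abs_nonneg _
  set Λ : ℝ := |θ| + 1 with hΛ
  have hΛ0 : 0 < Λ := by positivity
  -- the order of the Taylor expansion
  obtain ⟨n0, hn0⟩ : ∃ n0 : ℕ, 2 * ((1 / 2 : ℝ) ^ (2 * n0) * (2 * Real.exp (16 * Λ ^ 2 * F ^ 2))) ≤
      η / 4 := by
    have h1 : Tendsto (fun n : ℕ => 2 * ((1 / 2 : ℝ) ^ (2 * n) * (2 * Real.exp (16 * Λ ^ 2 * F ^ 2))))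
        atTop (𝓝 (2 * (0 * (2 * Real.exp (16 * Λ ^ 2 * F ^ 2))))) := by
      refine Tendsto.const_mul _ (Tendsto.mul_const _ ?_)
      exact (tendsto_pow_atTop_nhds_zero_of_lt_one (by norm_num) (by norm_num)).comp
        (tendsto_id.const_mul_atTop' (by norm_num : 0 < 2))
    rw [zero_mul, mul_zero] at h1
    exact (h1.eventually_le_const (by positivity)).exists
  set n : ℕ := 2 * n0 with hn
  have hne : Even n := ⟨n0, by omega⟩
  set A : ℕ := n + 1 with hA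
  -- the subspace theorem
  have hgood : ∀ k : ℕ, ∃ κ : ℝ, 0 < κ ∧ ∃ N0 : ℕ, ∀ N : ℕ, N0 ≤ N → ∀ K : ℕ,
      (K : ℝ) ≤ Real.exp (κ * N) → ∀ (y : ℝ) (J : ℤ) (M : ℕ), Real.exp (ε * N) ≤ M →
        Good b K k N M (fun m => y + (J + m) * x) (2 * Real.exp (-(ε / 2 * N))) :=
    fun k => good_alg b hb x hx hirr k ε hε
  choose κ hκ N1 hN1 using hgood
  -- largeness
  have l1 : ∀ᶠ N : ℕ in atTop, ∀ k ∈ range (n + 1), N1 k ≤ N ∧
      (((N ^ (2 * A) : ℕ) : ℝ) ≤ Real.exp (κ k * N)) ∧ k * N ^ (2 * A) < 2 ^ N := by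
    rw [eventually_all_finset]
    intro k _
    have h1 : ∀ᶠ N : ℕ in atTop, (N : ℝ) ^ (2 * A) * Real.exp (-(κ k * N)) ≤ 1 :=
      (pow_mul_exp_tendsto (2 * A) (κ k) (hκ k)).eventually_le_const one_pos
    have h2 : ∀ᶠ N : ℕ in atTop, (N : ℝ) ^ (2 * A) * Real.exp (-(Real.log 2 * N)) ≤
        1 / (2 * ((k : ℝ) + 1)) :=
      (pow_mul_exp_tendsto (2 * A) (Real.log 2) (Real.log_pos (by norm_num))).eventually_le_const
        (by positivity)
    filter_upwards [h1, h2, eventually_ge_atTop (N1 k)] with N a1 a2 a3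
    refine ⟨a3, ?_, ?_⟩
    · push_cast
      rw [Real.exp_neg, ← div_eq_mul_inv, div_le_one (Real.exp_pos _)] at a1
      exact a1
    · have h3 : Real.exp (Real.log 2 * N) = (2 : ℝ) ^ N := by
        rw [mul_comm, Real.exp_nat_mul, Real.exp_log (by norm_num)]
      rw [Real.exp_neg, ← div_eq_mul_inv, h3, div_le_iff₀ (by positivity)] at a2
      have h4 : (k : ℝ) * (N : ℝ) ^ (2 * A) < 2 ^ N := by
        have h5 : (k : ℝ) * (N : ℝ) ^ (2 * A) ≤ k * (1 / (2 * ((k : ℝ) + 1)) * 2 ^ N) :=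
          mul_le_mul_of_nonneg_left a2 (Nat.cast_nonneg _)
        have h6 : (k : ℝ) * (1 / (2 * ((k : ℝ) + 1)) * 2 ^ N) = k / (2 * ((k : ℝ) + 1)) * 2 ^ N := by
          ring
        have h7 : (k : ℝ) / (2 * ((k : ℝ) + 1)) < 1 := by
          rw [div_lt_one (by positivity)]
          have : (0 : ℝ) ≤ k := Nat.cast_nonneg _
          linarith
        have h8 : (0 : ℝ) < 2 ^ N := by positivity
        nlinarith
      exact_mod_cast h4
  have l2 : ∀ᶠ N : ℕ in atTop, ∑ j ∈ range (n + 1), |θ| ^ j * |Del b F ε A j N| ≤ η / 4 := by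
    have h1 : Tendsto (fun N => ∑ j ∈ range (n + 1), |θ| ^ j * |Del b F ε A j N|) atTop
        (𝓝 (∑ j ∈ range (n + 1), |θ| ^ j * |(0 : ℝ)|)) := by
      refine tendsto_finsetSum _ fun j hj => Tendsto.const_mul _ (Tendsto.abs ?_)
      rw [mem_range] at hj
      exact Del_tendsto b F ε hε A j (by omega)
    have h2 : ∑ j ∈ range (n + 1), |θ| ^ j * |(0 : ℝ)| = 0 := by simp
    rw [h2] at h1
    exact h1.eventually_le_const (by positivity)
  have l3 : ∀ᶠ N : ℕ in atTop, 2 * Λ * (2 * F) ≤ Real.sqrt N :=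
    (Real.tendsto_sqrt_atTop.comp tendsto_natCast_atTop_atTop).eventually_ge_atTop _
  have l4 : ∀ᶠ N : ℕ in atTop, ‖((∑ d ∈ range b,
      Complex.exp (Complex.I * (θ / Real.sqrt N * vv b f d : ℝ))) / b) ^ N -
      Complex.exp ((-(θ ^ 2 * ((∑ d ∈ range b, vv b f d ^ 2) / b) / 2) : ℝ) : ℂ)‖ ≤ η / 4 := by
    have h1 := (tendsto_iff_norm_sub_tendsto_zero.1 (model_tendsto b hb f θ))
    exact h1.eventually_le_const (by positivity)
  obtain ⟨N0, hN0⟩ := eventually_atTop.1 ((l1.and l2).and ((l3.and l4).and (eventually_ge_atTop 1)))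
  refine ⟨N0, fun N hN y J M hM => ?_⟩
  obtain ⟨⟨m1, m2⟩, ⟨m3, m4⟩, m5⟩ := hN0 N hN
  have hNR : (1 : ℝ) ≤ N := by exact_mod_cast m5
  have hN0' : (0 : ℝ) < N := by linarith
  have hs0 : 0 < Real.sqrt N := Real.sqrt_pos.2 hN0'
  have hs1 : 1 ≤ Real.sqrt N := by
    rw [show (1 : ℝ) = Real.sqrt 1 by simp]
    exact Real.sqrt_le_sqrt hNR
  have hs2 : Real.sqrt N ^ 2 = N := Real.sq_sqrt hN0'.le
  have hM0 : 0 < M := by
    have : (0 : ℝ) < M := lt_of_lt_of_le (Real.exp_pos _) hM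
    exact_mod_cast this
  have hM0' : 0 < b ^ (2 * N) := by positivity
  have hρ : 0 ≤ 2 * Real.exp (-(ε / 2 * N)) := by positivity
  have hδ0 : 0 < 1 / (N : ℝ) ^ A := by positivity
  have hδ1 : 1 / (N : ℝ) ^ A ≤ 1 := by
    rw [div_le_one (by positivity)]
    exact one_le_pow₀ hNR
  have hK : 1 / (1 / (N : ℝ) ^ A) ^ 2 ≤ ((N ^ (2 * A) : ℕ) : ℝ) := by
    rw [one_div_pow, one_div_one_div, ← pow_mul]
    push_cast
    rw [mul_comm A 2]
  have happ : Approx (N ^ (2 * A)) _ _ _ (gg b f) :=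
    approx_digit b hb f F hFa (N ^ (2 * A)) (1 / (N : ℝ) ^ A) hδ0 hδ1 hK
  have hC1 : 1 ≤ 8 * b * F + 1 := by
    have : 0 ≤ 8 * b * F := by positivity
    linarith
  have hΔ : ∀ j ≤ n, |avg M (fun m => y + (J + m) * x) (fun z => SS b f N z ^ j) -
      avg (b ^ (2 * N)) (ZM b N) (fun z => SS b f N z ^ j)| ≤ |Del b F ε A j N| := by
    intro j hj
    rcases Nat.eq_zero_or_pos j with h0 | h0
    · subst h0
      have a1 : ∀ (M : ℕ) (Z : ℕ → ℝ), 0 < M → avg M Z (fun z => SS b f N z ^ 0) = 1 := by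
        intro M Z hM
        unfold avg
        simp [hM.ne']
      rw [a1 _ _ hM0, a1 _ _ hM0', sub_self, abs_zero]
      exact abs_nonneg _
    · obtain ⟨b1, b2, b3⟩ := m1 j (mem_range.2 (by omega))
      refine le_trans ?_ (le_abs_self _)
      have h2 := avg_moment (N := N) (by omega : 1 ≤ b) h0 happ hC1 M (b ^ (2 * N))
        (fun m => y + (J + m) * x) (ZM b N) _ hM0 hM0' hρ
        (hN1 j N b1 _ b2 y J M hM) (good_model b j _ N hb b3 _ hρ)
      exact h2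
  have h1 := compare M (b ^ (2 * N)) (fun m => y + (J + m) * x) (ZM b N) (SS b f N)
    (θ / Real.sqrt N) n hne (fun j => |Del b F ε A j N|) hM0 hM0' hΔ
  have h2 : ∑ j ∈ range (n + 1), |θ / Real.sqrt N| ^ j / j.factorial * |Del b F ε A j N| ≤ η / 4 := by
    refine le_trans (sum_le_sum fun j _ => ?_) m2
    apply mul_le_mul_of_nonneg_right _ (abs_nonneg _)
    have a1 : |θ / Real.sqrt N| ≤ |θ| := by
      rw [abs_div, abs_of_pos hs0]
      exact div_le_self (abs_nonneg _) hs1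
    have a2 : (1 : ℝ) ≤ j.factorial := by exact_mod_cast Nat.factorial_pos j
    have a3 := pow_le_pow_left₀ (abs_nonneg _) a1 j
    calc |θ / Real.sqrt N| ^ j / j.factorial ≤ |θ / Real.sqrt N| ^ j :=
          div_le_self (by positivity) a2
      _ ≤ |θ| ^ j := a3
  have h3 : 2 * ((θ / Real.sqrt N) ^ n / n.factorial *
      avg (b ^ (2 * N)) (ZM b N) (fun z => SS b f N z ^ n)) ≤ η / 4 := by
    refine le_trans ?_ hn0
    apply mul_le_mul_of_nonneg_left _ (by norm_num)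
    set c : ℝ := 2 * Λ / Real.sqrt N with hc
    have hc0 : 0 < c := by positivity
    have hcF : |c| * (2 * F) ≤ 1 := by
      rw [abs_of_pos hc0, hc, div_mul_eq_mul_div, div_le_one hs0]
      exact m3
    have a1 := model_moment b hb f F hFa N c hcF n hne
    have a2 : (N : ℝ) * (c ^ 2 * (4 * F ^ 2)) = 16 * Λ ^ 2 * F ^ 2 := by
      rw [hc, div_pow, hs2]
      field_simp
      ring
    rw [a2] at a1
    have a3 : 0 ≤ avg (b ^ (2 * N)) (ZM b N) (fun z => SS b f N z ^ n) := by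
      unfold avg
      exact div_nonneg (sum_nonneg fun m _ => hne.pow_nonneg _) (Nat.cast_nonneg _)
    have a4 : (θ / Real.sqrt N) ^ n ≤ (1 / 2) ^ n * c ^ n := by
      rw [← mul_pow, ← hne.pow_abs]
      apply pow_le_pow_left₀ (abs_nonneg _)
      rw [abs_div, abs_of_pos hs0, hc]
      have : 1 / 2 * (2 * Λ / Real.sqrt N) = Λ / Real.sqrt N := by ring
      rw [this]
      gcongr
      rw [hΛ]; linarith
    calc (θ / Real.sqrt N) ^ n / n.factorial *
          avg (b ^ (2 * N)) (ZM b N) (fun z => SS b f N z ^ n)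
        ≤ (1 / 2) ^ n * c ^ n / n.factorial *
          avg (b ^ (2 * N)) (ZM b N) (fun z => SS b f N z ^ n) := by gcongr
      _ = (1 / 2) ^ n * (c ^ n / n.factorial *
          avg (b ^ (2 * N)) (ZM b N) (fun z => SS b f N z ^ n)) := by ring
      _ ≤ (1 / 2) ^ n * (2 * Real.exp (16 * Λ ^ 2 * F ^ 2)) :=
          mul_le_mul_of_nonneg_left a1 (by positivity)
  have h4 : cavg (b ^ (2 * N)) (ZM b N)
      (fun z => Complex.exp (Complex.I * (θ / Real.sqrt N * SS b f N z : ℝ))) =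
      ((∑ d ∈ range b, Complex.exp (Complex.I * (θ / Real.sqrt N * vv b f d : ℝ))) / b) ^ N := by
    have a1 := model_exp b hb f N (Complex.I * (θ / Real.sqrt N : ℝ))
    unfold cavg
    have a2 : ∀ r : ℝ, Complex.I * ((θ / Real.sqrt N * r : ℝ) : ℂ) =
        Complex.I * ((θ / Real.sqrt N : ℝ) : ℂ) * r := by
      intro r
      push_cast
      ring
    simp_rw [a2]
    exact a1
  rw [h4] at h1
  set X1 := cavg M (fun m => y + (J + m) * x)
        (fun z => Complex.exp (Complex.I * (θ / Real.sqrt N * SS b f N z : ℝ)))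
  set X2 := ((∑ d ∈ range b, Complex.exp (Complex.I * (θ / Real.sqrt N * vv b f d : ℝ))) /
    (b : ℂ)) ^ N
  set X3 := Complex.exp ((-(θ ^ 2 * ((∑ d ∈ range b, vv b f d ^ 2) / b) / 2) : ℝ) : ℂ)
  have e1 : X1 - X3 = (X1 - X2) + (X2 - X3) := by ring
  rw [e1]
  refine (norm_add_le _ _).trans ?_
  linarith

end Pool.Agent.R485.Mult
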