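import Pool.Agent.R485.Mult.Corr

/-!
# The model: the digits of the integers `a < b ^ (2 N)`
-/

set_option autoImplicit false

namespace Pool.Agent.R485.Mult

open Finset Filter Topology
open Pool.Agent.H469R2.NK (e norm_e e_add e_zero conj_e)

/-- the first digit after the point of the fractional part of `t` -/
noncomputable def dg (b : ℕ) (t : ℝ) : ℕ := (⌊(b : ℝ) * t⌋ % (b : ℤ)).toNat

lemma dg_eq (b : ℕ) (hb : 2 ≤ b) (t : ℝ) : ((dg b t : ℕ) : ℤ) = ⌊(b : ℝ) * Int.fract t⌋ ∧ dg b t < b := by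
  have hb0 : (0 : ℝ) < b := by exact_mod_cast (by omega : 0 < b)
  have h0 := Int.fract_nonneg t
  have h1 := Int.fract_lt_one t
  have e1 : (b : ℝ) * t = b * Int.fract t + ((b * ⌊t⌋ : ℤ) : ℝ) := by
    have : t = Int.fract t + (⌊t⌋ : ℤ) := (Int.fract_add_floor t).symm
    conv_lhs => rw [this]
    push_cast
    ring
  have h2 : 0 ≤ ⌊(b : ℝ) * Int.fract t⌋ := Int.floor_nonneg.2 (by positivity)
  have h3 : ⌊(b : ℝ) * Int.fract t⌋ < b := by
    rw [Int.floor_lt]
    push_cast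
    nlinarith
  have h4 : ⌊(b : ℝ) * t⌋ % (b : ℤ) = ⌊(b : ℝ) * Int.fract t⌋ := by
    rw [e1, Int.floor_add_intCast, Int.add_mul_emod_self_left, Int.emod_eq_of_lt h2 h3]
  unfold dg
  rw [h4]
  constructor
  · exact Int.toNat_of_nonneg h2
  · omega

lemma dg_saw (b : ℕ) (hb : 2 ≤ b) (f : ℕ → ℝ) (t : ℝ) :
    f (dg b t) - (∑ a ∈ range b, f a) / b =
      ∑ a ∈ range b, f a * (saw (t - ((a : ℝ) + 1) / b) - saw (t - (a : ℝ) / b)) := by
  have hb0 : (0 : ℝ) < b := by exact_mod_cast (by omega : 0 < b)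
  obtain ⟨h1, h2⟩ := dg_eq b hb t
  have h3 : ∀ a ∈ range b, f a * (saw (t - ((a : ℝ) + 1) / b) - saw (t - (a : ℝ) / b)) =
      (if a = dg b t then f a else 0) - f a / b := by
    intro a ha
    rw [mem_range] at ha
    have haR : (a : ℝ) + 1 ≤ b := by exact_mod_cast ha
    unfold saw
    rw [← indicator_eq t ((a : ℝ) / b) (((a : ℝ) + 1) / b) (by positivity)
      (by gcongr; linarith) (by rw [div_le_one hb0]; exact haR)]
    have h4 : ((a : ℝ) / b ≤ Int.fract t ∧ Int.fract t < ((a : ℝ) + 1) / b) ↔ a = dg b t := by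
      rw [div_le_iff₀ hb0, lt_div_iff₀ hb0]
      have h5 : a = dg b t ↔ ⌊(b : ℝ) * Int.fract t⌋ = (a : ℤ) := by
        rw [← h1]
        omega
      rw [h5, Int.floor_eq_iff]
      push_cast
      rw [mul_comm (Int.fract t)]
    by_cases h6 : a = dg b t
    · rw [if_pos h6, if_pos (h4.2 h6)]
      field_simp
      ring
    · rw [if_neg h6, if_neg (fun h7 => h6 (h4.1 h7))]
      field_simp
      ring
  rw [sum_congr rfl h3, sum_sub_distrib, sum_ite_eq' (range b) (dg b t) f,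
    if_pos (mem_range.2 h2), sum_div]

/-- trigonometric approximation of the digit functions -/
lemma approx_digit (b : ℕ) (hb : 2 ≤ b) (f : ℕ → ℝ) (F : ℝ) (hF : ∀ a ∈ range b, |f a| ≤ F) (K : ℕ)
    (δ : ℝ) (hδ0 : 0 < δ) (hδ1 : δ ≤ 1) (hK : 1 / δ ^ 2 ≤ K) :
    Approx K (12 * b * F / δ) (8 * b * F + 1) (6 * b * F * δ)
      (fun t => f (dg b t) - (∑ a ∈ range b, f a) / b) := by
  have hb0 : (0 : ℝ) < b := by exact_mod_cast (by omega : 0 < b)
  have hF0 : 0 ≤ F := (abs_nonneg _).trans (hF 0 (mem_range.2 (by omega)))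
  have hK0 : (0 : ℝ) < K := lt_of_lt_of_le (by positivity) hK
  have h2 : 1 / ((K : ℝ) * δ) ≤ δ := by
    rw [div_le_iff₀ (by positivity)]
    rw [div_le_iff₀ (by positivity)] at hK
    nlinarith
  have hL := LL_TP K δ hδ0 hδ1 hK
  have hU := UU_TP K δ hδ0 hδ1 hK
  have hG := IsTP.sum (range b) _ _ _ (fun (a : ℕ) _ =>
    ((hL.shift (((a : ℝ) + 1) / b)).add ((hL.shift ((a : ℝ) / b)).smul (-1))).smul (f a))
  have hUL := hU.add (hL.smul (-1))
  have hW := IsTP.sum (range b) _ _ _ (fun (a : ℕ) _ =>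
    ((hUL.shift (((a : ℝ) + 1) / b)).add (hUL.shift ((a : ℝ) / b))).smul |f a|)
  refine ⟨_, _, _, _, hG.mono ?_, hW.mono ?_, ?_, ?_, ?_, ?_⟩
  · have h3 : ∀ a ∈ range b, |f a| * (3 / δ + |(-1 : ℝ)| * (3 / δ)) ≤ F * (6 / δ) := by
      intro a ha
      rw [abs_neg, abs_one, one_mul]
      calc |f a| * (3 / δ + 3 / δ) ≤ F * (3 / δ + 3 / δ) :=
            mul_le_mul_of_nonneg_right (hF a ha) (by positivity)
        _ = F * (6 / δ) := by ring
    refine (sum_le_sum h3).trans ?_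
    rw [sum_const, card_range, nsmul_eq_mul]
    have h4 : 12 * (b : ℝ) * F / δ = b * (F * (6 / δ)) + b * (F * (6 / δ)) := by ring
    rw [h4]
    have : 0 ≤ (b : ℝ) * (F * (6 / δ)) := by positivity
    linarith
  · have h3 : ∀ a ∈ range b, |(|f a|)| * (3 / δ + |(-1 : ℝ)| * (3 / δ) + (3 / δ + |(-1 : ℝ)| * (3 / δ)))
        ≤ F * (12 / δ) := by
      intro a ha
      rw [abs_neg, abs_one, one_mul, abs_abs]
      calc |f a| * (3 / δ + 3 / δ + (3 / δ + 3 / δ)) ≤ F * (3 / δ + 3 / δ + (3 / δ + 3 / δ)) :=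
            mul_le_mul_of_nonneg_right (hF a ha) (by positivity)
        _ = F * (12 / δ) := by ring
    refine (sum_le_sum h3).trans (le_of_eq ?_)
    rw [sum_const, card_range, nsmul_eq_mul]
    ring
  · intro t
    have h3 : |(∑ a ∈ range b, f a) / b| ≤ F := by
      rw [abs_div, abs_of_pos hb0, div_le_iff₀ hb0]
      refine (abs_sum_le_sum_abs _ _).trans ((sum_le_sum hF).trans (le_of_eq ?_))
      rw [sum_const, card_range, nsmul_eq_mul, mul_comm]
    have h4 := hF (dg b t) (mem_range.2 (dg_eq b hb t).2)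
    have h5 : (2 : ℝ) ≤ b := by exact_mod_cast hb
    refine (abs_sub _ _).trans ?_
    nlinarith
  · intro t
    beta_reduce
    refine (abs_sum_le_sum_abs _ _).trans ?_
    have h3 : ∀ a ∈ range b, |f a * (LL K δ (t - ((a : ℝ) + 1) / b) +
        (-1) * LL K δ (t - (a : ℝ) / b))| ≤ F * 8 := by
      intro a ha
      rw [abs_mul]
      apply mul_le_mul (hF a ha) _ (abs_nonneg _) hF0
      have u1 := abs_le.1 (approx K δ hδ0 hδ1 hK (t - ((a : ℝ) + 1) / b)).2.2
      have u2 := abs_le.1 (approx K δ hδ0 hδ1 hK (t - (a : ℝ) / b)).2.2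
      rw [abs_le]
      constructor <;> linarith [u1.1, u1.2, u2.1, u2.2]
    refine (sum_le_sum h3).trans ?_
    rw [sum_const, card_range, nsmul_eq_mul]
    linarith
  · intro t
    beta_reduce
    rw [dg_saw b hb f t, ← sum_sub_distrib]
    refine (abs_sum_le_sum_abs _ _).trans (sum_le_sum fun a _ => ?_)
    rw [← mul_sub, abs_mul]
    apply mul_le_mul_of_nonneg_left _ (abs_nonneg _)
    have u1 := approx K δ hδ0 hδ1 hK (t - ((a : ℝ) + 1) / b)
    have u2 := approx K δ hδ0 hδ1 hK (t - (a : ℝ) / b)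
    rw [abs_le]
    constructor <;> linarith [u1.1, u1.2.1, u2.1, u2.2.1]
  · have h3 : ∀ a ∈ range b, |f a| * (δ / 2 + 1 / (K * δ) + (-1) * -(δ / 2 + 1 / (K * δ)) +
        (δ / 2 + 1 / (K * δ) + (-1) * -(δ / 2 + 1 / (K * δ)))) ≤ F * (6 * δ) := by
      intro a ha
      have h0 : 0 ≤ δ / 2 + 1 / ((K : ℝ) * δ) := by positivity
      apply mul_le_mul (hF a ha) _ (by linarith) hF0
      linarith
    refine (sum_le_sum h3).trans (le_of_eq ?_)
    rw [sum_const, card_range, nsmul_eq_mul]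
    ring

lemma e_eq_one {t : ℝ} (h : e t = 1) : ∃ n : ℤ, t = n := by
  unfold Pool.Agent.H469R2.NK.e at h
  rw [Complex.exp_eq_one_iff] at h
  obtain ⟨n, hn⟩ := h
  refine ⟨n, ?_⟩
  have h1 : ((2 * Real.pi * t : ℝ) : ℂ) = n * (2 * Real.pi) := by
    have h2 : ((2 * Real.pi * t : ℝ) : ℂ) * Complex.I = (n * (2 * Real.pi)) * Complex.I := by
      rw [hn]; ring
    exact mul_right_cancel₀ Complex.I_ne_zero h2
  have h3 : 2 * Real.pi * t = n * (2 * Real.pi) := by exact_mod_cast h1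
  have hpi := Real.pi_pos
  have h4 : (2 * Real.pi) * t = (2 * Real.pi) * n := by linarith
  exact mul_left_cancel₀ (by positivity) h4

/-- the integers below `b ^ (2 N)` are good -/
lemma good_model (b k K N : ℕ) (hb : 2 ≤ b) (hK : k * K < 2 ^ N) (ρ : ℝ) (hρ : 0 ≤ ρ) :
    Good b K k N (b ^ (2 * N)) (fun a => (a : ℝ) / (b : ℝ) ^ (2 * N)) ρ := by
  intro i hi h hh hne
  have hb0 : (0 : ℝ) < b := by exact_mod_cast (by omega : 0 < b)
  set fr : ℤ := ∑ j, h j * (b : ℤ) ^ (i j) with hfr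
  have hlt : |fr| < (b : ℤ) ^ (2 * N) := by
    have h1 : |fr| ≤ k * (K * (b : ℤ) ^ N) := by
      refine (abs_sum_le_sum_abs _ _).trans ?_
      have h2 : ∀ j ∈ (univ : Finset (Fin k)), |h j * (b : ℤ) ^ (i j)| ≤ K * (b : ℤ) ^ N := by
        intro j _
        rw [abs_mul, abs_of_nonneg (by positivity : (0 : ℤ) ≤ (b : ℤ) ^ (i j))]
        exact mul_le_mul (hh j) (pow_le_pow_right₀ (by omega) (hi j)) (by positivity) (by positivity)
      refine (sum_le_sum h2).trans ?_
      rw [sum_const, card_univ, Fintype.card_fin, nsmul_eq_mul]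
    refine lt_of_le_of_lt h1 ?_
    have h3 : (k : ℤ) * K < (b : ℤ) ^ N := by
      have h4 : k * K < b ^ N := lt_of_lt_of_le hK (Nat.pow_le_pow_left hb N)
      exact_mod_cast h4
    have h5 : (b : ℤ) ^ (2 * N) = (b : ℤ) ^ N * (b : ℤ) ^ N := by rw [two_mul, pow_add]
    rw [h5, ← mul_assoc]
    exact mul_lt_mul_of_pos_right h3 (by positivity)
  set t : ℝ := (fr : ℝ) / (b : ℝ) ^ (2 * N) with ht
  have h1 : ∀ a : ℕ, e ((a : ℝ) / (b : ℝ) ^ (2 * N) * (fr : ℝ)) = e t ^ a := by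
    intro a
    rw [← e_natmul]
    congr 1
    rw [ht]
    ring
  have h2 : e t ≠ 1 := by
    intro h3
    obtain ⟨n, hn⟩ := e_eq_one h3
    rw [ht, div_eq_iff (by positivity)] at hn
    have h4 : fr = n * (b : ℤ) ^ (2 * N) := by exact_mod_cast hn
    rw [h4, abs_mul, abs_of_nonneg (by positivity : (0 : ℤ) ≤ (b : ℤ) ^ (2 * N))] at hlt
    have h5 : |n| < 1 := by
      by_contra h6
      push Not at h6
      have : (1 : ℤ) * (b : ℤ) ^ (2 * N) ≤ |n| * (b : ℤ) ^ (2 * N) :=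
        mul_le_mul_of_nonneg_right h6 (by positivity)
      linarith
    have h6 : n = 0 := Int.abs_lt_one_iff.1 h5
    rw [h6, zero_mul] at h4
    exact hne h4
  have h3 : ∑ m ∈ range (b ^ (2 * N)), e ((m : ℝ) / (b : ℝ) ^ (2 * N) * (fr : ℝ)) = 0 := by
    rw [sum_congr rfl fun a _ => h1 a, geom_sum_eq h2, ← e_natmul]
    have h4 : ((b ^ (2 * N) : ℕ) : ℝ) * t = fr := by
      rw [ht]
      push_cast
      field_simp
    rw [h4, e_intCast, sub_self, zero_div]
  simp only
  rw [h3, norm_zero]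
  positivity

lemma sum_range_mul' {A : Type*} [AddCommMonoid A] (m n : ℕ) (F : ℕ → A) :
    ∑ a ∈ range (m * n), F a = ∑ a ∈ range m, ∑ d ∈ range n, F (a * n + d) := by
  induction m with
  | zero => simp
  | succ m ih => rw [add_mul, one_mul, sum_range_add, ih, sum_range_succ]

/-- the digits of the integers below `b ^ R` are independent -/
lemma model_prod {A : Type*} [CommSemiring A] (b : ℕ) (hb : 1 ≤ b) (φ : ℕ → A) (R : ℕ) :
    ∀ N : ℕ, N ≤ R → ∑ a ∈ range (b ^ R), ∏ i ∈ range N, φ (a / b ^ (R - 1 - i) % b) =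
      (b : A) ^ (R - N) * (∑ d ∈ range b, φ d) ^ N := by
  induction R with
  | zero =>
    intro N hN
    have : N = 0 := by omega
    subst this
    simp
  | succ R ih =>
    intro N hN
    rw [pow_succ, sum_range_mul']
    have hdig : ∀ a d i : ℕ, d < b → i < R →
        (a * b + d) / b ^ (R + 1 - 1 - i) % b = a / b ^ (R - 1 - i) % b := by
      intro a d i hd hi
      have h1 : R + 1 - 1 - i = (R - 1 - i) + 1 := by omega
      rw [h1, pow_succ', ← Nat.div_div_eq_div_mul]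
      congr 2
      rw [add_comm, Nat.add_mul_div_right _ _ (by omega), Nat.div_eq_of_lt hd, zero_add]
    by_cases hNR : N ≤ R
    · have h2 : ∀ a ∈ range (b ^ R), ∑ d ∈ range b, ∏ i ∈ range N,
          φ ((a * b + d) / b ^ (R + 1 - 1 - i) % b) =
          (b : A) * ∏ i ∈ range N, φ (a / b ^ (R - 1 - i) % b) := by
        intro a _
        rw [sum_congr rfl (g := fun _ => ∏ i ∈ range N, φ (a / b ^ (R - 1 - i) % b))]
        · rw [sum_const, card_range, nsmul_eq_mul]
        · intro d hd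
          refine prod_congr rfl fun i hi => ?_
          rw [hdig a d i (mem_range.1 hd) (by have := mem_range.1 hi; omega)]
      rw [sum_congr rfl h2, ← mul_sum, ih N hNR]
      have h3 : R + 1 - N = (R - N) + 1 := by omega
      rw [h3, pow_succ]
      ring
    · have hN1 : N = R + 1 := by omega
      subst hN1
      have h2 : ∀ a ∈ range (b ^ R), ∑ d ∈ range b, ∏ i ∈ range (R + 1),
          φ ((a * b + d) / b ^ (R + 1 - 1 - i) % b) =
          (∏ i ∈ range R, φ (a / b ^ (R - 1 - i) % b)) * ∑ d ∈ range b, φ d := by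
        intro a _
        rw [mul_sum]
        refine sum_congr rfl fun d hd => ?_
        have hd' := mem_range.1 hd
        rw [prod_range_succ]
        congr 1
        · refine prod_congr rfl fun i hi => ?_
          rw [hdig a d i hd' (mem_range.1 hi)]
        · have h4 : R + 1 - 1 - R = 0 := by omega
          rw [h4, pow_zero, Nat.div_one, Nat.add_comm, Nat.add_mul_mod_self_right,
            Nat.mod_eq_of_lt hd']
      rw [sum_congr rfl h2, ← sum_mul, ih R le_rfl]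
      rw [Nat.sub_self, Nat.sub_self, pow_zero, one_mul, one_mul, pow_succ]

/-- the digit functions at the points of the model -/
lemma dg_model (b : ℕ) (hb : 2 ≤ b) (N a i : ℕ) (hi : i < 2 * N) :
    dg b ((a : ℝ) / (b : ℝ) ^ (2 * N) * (b : ℝ) ^ i) = a / b ^ (2 * N - 1 - i) % b := by
  have hb0 : (0 : ℝ) < b := by exact_mod_cast (by omega : 0 < b)
  unfold dg
  have h1 : (b : ℝ) * ((a : ℝ) / (b : ℝ) ^ (2 * N) * (b : ℝ) ^ i) =
      (a : ℝ) / ((b ^ (2 * N - 1 - i) : ℕ) : ℝ) := by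
    have h2 : (b : ℝ) ^ (2 * N) = (b : ℝ) ^ (2 * N - 1 - i) * ((b : ℝ) ^ i * b) := by
      rw [← pow_succ, ← pow_add]
      congr 1
      omega
    rw [h2]
    push_cast
    field_simp
  rw [h1, Int.floor_div_natCast, Int.floor_natCast]
  have h2 : ((a : ℤ) / ((b ^ (2 * N - 1 - i) : ℕ) : ℤ)) % (b : ℤ) =
      ((a / b ^ (2 * N - 1 - i) % b : ℕ) : ℤ) := by
    rw [Int.natCast_mod, Int.natCast_div]
  rw [h2, Int.toNat_natCast]

end Pool.Agent.R485.Mult
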