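import Pool.Agent.R485.Mult.Dioph
import Pool.Agent.R485.Mult.Count

/-!
# Moments of exponential sums over the multiples of an algebraic irrational number
-/

set_option autoImplicit false

namespace Pool.Agent.R485.Mult

open Finset Filter Topology
open Pool.Agent.H469R2.NK (e norm_e e_add e_zero conj_e)
open Pool.Agent.W565.MOFS (P2 diff_bound saw_upper saw_lower)

lemma e_sum {ι : Type*} (S : Finset ι) (f : ι → ℝ) : e (∑ j ∈ S, f j) = ∏ j ∈ S, e (f j) := by
  classical
  induction S using Finset.induction_on with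
  | empty => simp [e_zero]
  | insert a S ha ih => rw [sum_insert ha, prod_insert ha, e_add, ih]

/-- alternating signs -/
def sg (j : ℕ) : ℤ := if j % 2 = 0 then 1 else -1

lemma abs_sg (j : ℕ) : |sg j| = 1 := by
  unfold sg
  split_ifs <;> simp

lemma prod_sg (s : ℕ) (A B : ℂ) :
    ∏ j ∈ range (2 * s), (if j % 2 = 0 then A else B) = (A * B) ^ s := by
  induction s with
  | zero => simp
  | succ s ih =>
    rw [show 2 * (s + 1) = 2 * s + 1 + 1 by ring, prod_range_succ, prod_range_succ, ih,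
      if_pos (by omega), if_neg (by omega), pow_succ]
    ring

/-- expansion of the even powers of an exponential sum -/
lemma pow_expand (s n : ℕ) (c : ℝ) (b : ℕ) :
    ((‖∑ i ∈ Icc 1 n, e (c * (b : ℝ) ^ i)‖ ^ (2 * s) : ℝ) : ℂ) =
      ∑ p ∈ Fintype.piFinset (fun _ : Fin (2 * s) => Icc 1 n),
        e (c * ((∑ j : Fin (2 * s), sg j * (b : ℤ) ^ (p j) : ℤ) : ℝ)) := by
  set S := ∑ i ∈ Icc 1 n, e (c * (b : ℝ) ^ i) with hS
  have h1 : ((‖S‖ ^ (2 * s) : ℝ) : ℂ) = (S * (starRingEnd ℂ) S) ^ s := by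
    rw [Complex.mul_conj, Complex.normSq_eq_norm_sq, pow_mul]
    push_cast
    rfl
  have h2 : (starRingEnd ℂ) S = ∑ i ∈ Icc 1 n, e (-(c * (b : ℝ) ^ i)) := by
    rw [hS, map_sum]
    exact sum_congr rfl fun i _ => conj_e _
  rw [h1, ← prod_sg]
  rw [← Fin.prod_univ_eq_prod_range (fun j => if j % 2 = 0 then S else (starRingEnd ℂ) S) (2 * s)]
  have h3 : ∀ j : Fin (2 * s), (if (j : ℕ) % 2 = 0 then S else (starRingEnd ℂ) S) =
      ∑ i ∈ Icc 1 n, e (c * ((sg j * (b : ℤ) ^ i : ℤ) : ℝ)) := by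
    intro j
    unfold sg
    split_ifs with h
    · rw [hS]
      refine sum_congr rfl fun i _ => ?_
      push_cast
      rw [one_mul]
    · rw [h2]
      refine sum_congr rfl fun i _ => ?_
      push_cast
      congr 1
      ring
  rw [prod_congr rfl fun j _ => h3 j, prod_univ_sum]
  refine sum_congr rfl fun p _ => ?_
  rw [← e_sum]
  congr 1
  rw [Int.cast_sum, mul_sum]

/-- the moments of the exponential sums over the multiples -/
theorem moment (b : ℕ) (hb : 2 ≤ b) (x : ℝ) (hx : IsAlgebraic ℚ x) (hirr : Irrational x) (s : ℕ)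
    (hs : 1 ≤ s) (ε : ℝ) (hε : 0 < ε) :
    ∃ N0 : ℕ, ∀ N : ℕ, N0 ≤ N → ∀ (y : ℝ) (J : ℤ) (M h n : ℕ), 1 ≤ h → h ≤ N → n ≤ N →
      ∑ m ∈ range M, ‖∑ i ∈ Icc 1 n, e (h * (y + (J + m) * x) * (b : ℝ) ^ i)‖ ^ (2 * s) ≤
        M * (s ^ (2 * s) * (2 * (2 * s) + 1) ^ (2 * s) * N ^ s : ℕ) +
          (N : ℝ) ^ (2 * s) * (2 * Real.exp (ε * N)) := by
  classical
  obtain ⟨κ, hκ, N1, hD⟩ := dioph b hb x hx hirr (2 * s) ε hε
  have hlim : ∀ᶠ N : ℕ in atTop, (N : ℝ) ≤ Real.exp (κ * N) := by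
    have h1 : Tendsto (fun u : ℝ => Real.exp u / u ^ 1) atTop atTop := Real.tendsto_exp_div_pow_atTop 1
    have h2 : Tendsto (fun N : ℕ => κ * (N : ℝ)) atTop atTop :=
      tendsto_natCast_atTop_atTop.const_mul_atTop hκ
    filter_upwards [(h1.comp h2).eventually_ge_atTop (1 / κ), eventually_gt_atTop 0] with N hN hN0
    have hN0' : (0 : ℝ) < N := by exact_mod_cast hN0
    simp only [Function.comp, pow_one] at hN
    rw [le_div_iff₀ (by positivity)] at hN
    have : 1 / κ * (κ * N) = N := by field_simp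
    linarith
  obtain ⟨N2, hN2⟩ := eventually_atTop.1 hlim
  refine ⟨max N1 N2, fun N hN y J M h n hh1 hh hn => ?_⟩
  have hNa : N1 ≤ N := (le_max_left _ _).trans hN
  have hNb := hN2 N ((le_max_right _ _).trans hN)
  set K : (Fin (2 * s) → ℕ) → ℤ := fun p => ∑ j : Fin (2 * s), sg j * (b : ℤ) ^ (p j) with hK
  set PP := Fintype.piFinset (fun _ : Fin (2 * s) => Icc 1 n) with hPP
  have h1 : ((∑ m ∈ range M, ‖∑ i ∈ Icc 1 n, e (h * (y + (J + m) * x) * (b : ℝ) ^ i)‖ ^ (2 * s) : ℝ)
      : ℂ) = ∑ p ∈ PP, ∑ m ∈ range M, e (h * y * K p + (J + m) * (x * (h * K p))) := by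
    rw [Complex.ofReal_sum, sum_comm]
    refine sum_congr rfl fun m _ => ?_
    rw [pow_expand]
    refine sum_congr rfl fun p _ => ?_
    congr 1
    ring
  have h2 : ∑ m ∈ range M, ‖∑ i ∈ Icc 1 n, e (h * (y + (J + m) * x) * (b : ℝ) ^ i)‖ ^ (2 * s) =
      ‖∑ p ∈ PP, ∑ m ∈ range M, e (h * y * K p + (J + m) * (x * (h * K p)))‖ := by
    rw [← h1, Complex.norm_real, Real.norm_eq_abs, abs_of_nonneg]
    exact sum_nonneg fun m _ => by positivity
  rw [h2]
  have h3 : ∀ p ∈ PP, ‖∑ m ∈ range M, e (h * y * K p + (J + m) * (x * (h * K p)))‖ ≤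
      (if K p = 0 then (M : ℝ) else 0) + 2 * Real.exp (ε * N) := by
    intro p hp
    split_ifs with hp0
    · rw [hp0]
      have : ‖∑ m ∈ range M, e (h * y * ((0 : ℤ) : ℝ) + (J + m) * (x * (h * ((0 : ℤ) : ℝ))))‖ ≤ M := by
        refine (norm_sum_le _ _).trans ?_
        rw [sum_congr rfl fun m _ => norm_e _]
        simp
      have h5 := Real.exp_pos (ε * N)
      linarith
    · rw [zero_add]
      have h4 := geom (x * (h * K p)) (Real.exp (-(ε * N))) (Real.exp_pos _) (by
        intro P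
        have h5 := hD N hNa p (fun i => by
          have := (Fintype.mem_piFinset.1 hp) i
          rw [mem_Icc] at this
          omega) (fun j => sg (j : ℕ) * h) (fun j => by
            rw [← Int.cast_abs, abs_mul, abs_sg, one_mul]
            have h6 : |(h : ℤ)| = h := abs_of_nonneg (by positivity)
            rw [h6]
            push_cast
            refine le_trans ?_ hNb
            exact_mod_cast hh) (by
            have h6 : ∑ j : Fin (2 * s), sg j * (h : ℤ) * (b : ℤ) ^ (p j) = h * K p := by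
              rw [hK, mul_sum]
              exact sum_congr rfl fun j _ => by ring
            rw [h6]
            exact mul_ne_zero (by omega) hp0) P
        have h6 : ∑ j : Fin (2 * s), ((sg j * (h : ℤ) : ℤ) : ℝ) * (b : ℝ) ^ (p j) = h * K p := by
          rw [hK]
          push_cast
          rw [mul_sum]
          exact sum_congr rfl fun j _ => by ring
        rw [h6] at h5
        exact h5) (h * y * K p) J M
      refine h4.trans (le_of_eq ?_)
      rw [Real.exp_neg, div_inv_eq_mul]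
  refine (norm_sum_le _ _).trans ((sum_le_sum h3).trans ?_)
  rw [sum_add_distrib, ← sum_filter, sum_const, sum_const, nsmul_eq_mul, nsmul_eq_mul]
  apply add_le_add
  · rw [mul_comm]
    apply mul_le_mul_of_nonneg_left _ (Nat.cast_nonneg _)
    have h7 := count_vanish b hb s hs (fun j => sg j) (fun j => abs_sg j) n
    refine (Nat.cast_le.2 h7).trans ?_
    exact_mod_cast Nat.mul_le_mul_left _ (Nat.pow_le_pow_left hn s)
  · apply mul_le_mul_of_nonneg_right _ (by positivity)
    rw [hPP, Fintype.card_piFinset]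
    simp only [Nat.card_Icc, Nat.add_sub_cancel, prod_const, card_univ, Fintype.card_fin]
    push_cast
    exact pow_le_pow_left₀ (Nat.cast_nonneg _) (by exact_mod_cast hn) _

/-- an Erdos-Turan type inequality for the sawtooth function -/
theorem saw_bound {ι : Type} (S : Finset ι) (x : ι → ℝ) (K : ℕ) (hK : 1 ≤ K) (δ : ℝ) (hδ0 : 0 < δ)
    (hδ1 : δ ≤ 1) :
    |∑ n ∈ S, (Int.fract (x n) - 1 / 2)| ≤
      ∑ h ∈ Icc 1 K, ‖∑ n ∈ S, e (h * x n)‖ / h + S.card / (K * δ) + S.card * δ := by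
  have hK0 : (0 : ℝ) < K := by exact_mod_cast hK
  set D : ℝ := 1 / Real.pi ^ 2 * (∑ h ∈ Icc 1 K, 2 * Real.pi * δ / h *
    ‖∑ n ∈ S, e (h * x n)‖ + 2 * S.card / K) with hD
  have hu : |∑ n ∈ S, (P2 (Int.fract (x n + δ)) - P2 (Int.fract (x n)))| ≤ D := by
    have := diff_bound S x δ K hK
    rwa [abs_of_pos hδ0] at this
  have hl : |∑ n ∈ S, (P2 (Int.fract (x n + -δ)) - P2 (Int.fract (x n)))| ≤ D := by
    have := diff_bound S x (-δ) K hK
    rwa [abs_neg, abs_of_pos hδ0] at this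
  have h1 : ∑ n ∈ S, (Int.fract (x n) - 1 / 2) ≤ D / (2 * δ) + S.card * (δ / 2) := by
    have h2 : ∑ n ∈ S, (Int.fract (x n) - 1 / 2) ≤
        ∑ n ∈ S, ((P2 (Int.fract (x n)) - P2 (Int.fract (x n - δ))) / (2 * δ) + δ / 2) :=
      sum_le_sum fun n _ => saw_upper (x n) δ hδ0 hδ1
    rw [sum_add_distrib, ← sum_div, sum_const, nsmul_eq_mul] at h2
    have h3 : ∑ n ∈ S, (P2 (Int.fract (x n)) - P2 (Int.fract (x n - δ))) ≤ D := by
      have h4 := (abs_le.1 hl).1
      have h5 : ∑ n ∈ S, (P2 (Int.fract (x n)) - P2 (Int.fract (x n - δ))) =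
          -∑ n ∈ S, (P2 (Int.fract (x n + -δ)) - P2 (Int.fract (x n))) := by
        rw [← sum_neg_distrib]
        refine sum_congr rfl fun n _ => ?_
        rw [sub_eq_add_neg (x n) δ]; ring
      rw [h5]; linarith
    have h6 : (∑ n ∈ S, (P2 (Int.fract (x n)) - P2 (Int.fract (x n - δ)))) / (2 * δ) ≤
        D / (2 * δ) := by gcongr
    linarith
  have h2 : -(D / (2 * δ) + S.card * (δ / 2)) ≤ ∑ n ∈ S, (Int.fract (x n) - 1 / 2) := by
    have h2 : ∑ n ∈ S, ((P2 (Int.fract (x n + δ)) - P2 (Int.fract (x n))) / (2 * δ) - δ / 2) ≤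
        ∑ n ∈ S, (Int.fract (x n) - 1 / 2) :=
      sum_le_sum fun n _ => saw_lower (x n) δ hδ0 hδ1
    rw [sum_sub_distrib, ← sum_div, sum_const, nsmul_eq_mul] at h2
    have h6 : -D / (2 * δ) ≤
        (∑ n ∈ S, (P2 (Int.fract (x n + δ)) - P2 (Int.fract (x n)))) / (2 * δ) := by
      have := (abs_le.1 hu).1
      gcongr
    have h7 : -D / (2 * δ) = -(D / (2 * δ)) := neg_div _ _
    linarith
  have h3 : D / (2 * δ) ≤ ∑ h ∈ Icc 1 K, ‖∑ n ∈ S, e (h * x n)‖ / h + S.card / (K * δ) := by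
    have hpi : 3 < Real.pi := Real.pi_gt_three
    have e1 : D / (2 * δ) = 1 / Real.pi * ∑ h ∈ Icc 1 K, ‖∑ n ∈ S, e (h * x n)‖ / h +
        1 / Real.pi ^ 2 * (S.card / (K * δ)) := by
      rw [hD, mul_add, add_div]
      congr 1
      · rw [mul_sum, sum_div, mul_sum]
        refine sum_congr rfl fun h hh => ?_
        have : (h : ℝ) ≠ 0 := by
          have := (mem_Icc.1 hh).1
          positivity
        field_simp
      · field_simp
    rw [e1]
    have e2 : 1 / Real.pi ≤ 1 := by rw [div_le_one (by positivity)]; linarith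
    have e3 : 1 / Real.pi ^ 2 ≤ 1 := by rw [div_le_one (by positivity)]; nlinarith
    have e4 : 0 ≤ ∑ h ∈ Icc 1 K, ‖∑ n ∈ S, e (h * x n)‖ / h :=
      sum_nonneg fun h _ => by positivity
    have e5 : 0 ≤ (S.card : ℝ) / (K * δ) := by positivity
    nlinarith
  have h4 : (S.card : ℝ) * (δ / 2) ≤ S.card * δ :=
    mul_le_mul_of_nonneg_left (by linarith) (Nat.cast_nonneg _)
  rw [abs_le]
  constructor <;> linarith

lemma indicator_eq (t α β : ℝ) (h0 : 0 ≤ α) (h1 : α < β) (h2 : β ≤ 1) :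
    (if α ≤ Int.fract t ∧ Int.fract t < β then (1 : ℝ) else 0) - (β - α) =
      (Int.fract (t - β) - 1 / 2) - (Int.fract (t - α) - 1 / 2) := by
  have hu0 := Int.fract_nonneg t
  have hu1 := Int.fract_lt_one t
  set u := Int.fract t with hu
  have ht : t = u + (⌊t⌋ : ℤ) := (Int.fract_add_floor t).symm
  have e1 : Int.fract (t - β) = if u < β then u - β + 1 else u - β := by
    have : t - β = (u - β) + (⌊t⌋ : ℤ) := by linarith
    rw [this, Int.fract_add_intCast]
    split_ifs with h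
    · have : u - β = (u - β + 1) + ((-1 : ℤ) : ℝ) := by push_cast; ring
      rw [this, Int.fract_add_intCast, Int.fract_eq_self.2 ⟨by linarith, by linarith⟩]
      push_cast; ring
    · exact Int.fract_eq_self.2 ⟨by linarith, by linarith⟩
  have e2 : Int.fract (t - α) = if u < α then u - α + 1 else u - α := by
    have : t - α = (u - α) + (⌊t⌋ : ℤ) := by linarith
    rw [this, Int.fract_add_intCast]
    split_ifs with h
    · have : u - α = (u - α + 1) + ((-1 : ℤ) : ℝ) := by push_cast; ring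
      rw [this, Int.fract_add_intCast, Int.fract_eq_self.2 ⟨by linarith, by linarith⟩]
      push_cast; ring
    · exact Int.fract_eq_self.2 ⟨by linarith, by linarith⟩
  rw [e1, e2]
  by_cases ha : u < α
  · rw [if_neg (by intro h; linarith [h.1]), if_pos (by linarith), if_pos ha]
    ring
  · by_cases hb : u < β
    · rw [if_pos ⟨by linarith, hb⟩, if_pos hb, if_neg ha]
      ring
    · rw [if_neg (by intro h; exact hb h.2), if_neg hb, if_neg ha]
      ring

end Pool.Agent.R485.Mult
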