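import Pool.Agent.R485.Mult.Disc

/-!
# Trigonometric polynomials approximating the digit functions
-/

set_option autoImplicit false

namespace Pool.Agent.R485.Mult

open Finset Filter Topology
open Pool.Agent.H469R2.NK (e norm_e e_add e_zero conj_e)
open Pool.Agent.W565.MOFS (P2 cos_sum diff_bound saw_upper saw_lower re_e)

/-- `F` is a trigonometric polynomial of degree at most `K`, the absolute values of the coefficients
add up to at most `R`, and the constant coefficient is `μ` -/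
def IsTP (K : ℕ) (R : ℝ) (F : ℝ → ℝ) (μ : ℝ) : Prop :=
  ∃ c : ℤ → ℂ, (∀ t, ((F t : ℝ) : ℂ) = ∑ h ∈ Icc (-(K : ℤ)) K, c h * e (h * t)) ∧
    ∑ h ∈ Icc (-(K : ℤ)) K, ‖c h‖ ≤ R ∧ c 0 = μ

lemma IsTP.mono {K : ℕ} {R R' : ℝ} {F : ℝ → ℝ} {μ : ℝ} (h : IsTP K R F μ) (hR : R ≤ R') :
    IsTP K R' F μ := by
  obtain ⟨c, h1, h2, h3⟩ := h
  exact ⟨c, h1, h2.trans hR, h3⟩

lemma IsTP.const (K : ℕ) (a : ℝ) : IsTP K |a| (fun _ => a) a := by
  refine ⟨fun h => if h = 0 then (a : ℂ) else 0, fun t => ?_, ?_, by simp⟩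
  · rw [sum_eq_single 0]
    · simp [e_zero]
    · intro h _ hh
      beta_reduce
      rw [if_neg hh, zero_mul]
    · intro h
      exact absurd (mem_Icc.2 ⟨by omega, by omega⟩) h
  · rw [sum_eq_single 0]
    · simp
    · intro h _ hh
      beta_reduce
      rw [if_neg hh, norm_zero]
    · intro h
      exact absurd (mem_Icc.2 ⟨by omega, by omega⟩) h

lemma IsTP.add {K : ℕ} {R R' : ℝ} {F F' : ℝ → ℝ} {μ μ' : ℝ} (h : IsTP K R F μ)
    (h' : IsTP K R' F' μ') : IsTP K (R + R') (fun t => F t + F' t) (μ + μ') := by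
  obtain ⟨c, h1, h2, h3⟩ := h
  obtain ⟨c', h1', h2', h3'⟩ := h'
  refine ⟨fun h => c h + c' h, fun t => ?_, ?_, by beta_reduce; rw [h3, h3']; push_cast; rfl⟩
  · push_cast
    rw [h1, h1', ← sum_add_distrib]
    exact sum_congr rfl fun h _ => by ring
  · refine (sum_le_sum fun h _ => norm_add_le _ _).trans ?_
    rw [sum_add_distrib]
    exact add_le_add h2 h2'

lemma IsTP.smul {K : ℕ} {R : ℝ} {F : ℝ → ℝ} {μ : ℝ} (h : IsTP K R F μ) (a : ℝ) :
    IsTP K (|a| * R) (fun t => a * F t) (a * μ) := by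
  obtain ⟨c, h1, h2, h3⟩ := h
  refine ⟨fun h => a * c h, fun t => ?_, ?_, by beta_reduce; rw [h3]; push_cast; rfl⟩
  · push_cast
    rw [h1, mul_sum]
    exact sum_congr rfl fun h _ => by ring
  · have : ∑ h ∈ Icc (-(K : ℤ)) K, ‖(a : ℂ) * c h‖ = |a| * ∑ h ∈ Icc (-(K : ℤ)) K, ‖c h‖ := by
      rw [mul_sum]
      refine sum_congr rfl fun h _ => ?_
      rw [norm_mul, Complex.norm_real, Real.norm_eq_abs]
    rw [this]
    exact mul_le_mul_of_nonneg_left h2 (abs_nonneg _)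

lemma IsTP.shift {K : ℕ} {R : ℝ} {F : ℝ → ℝ} {μ : ℝ} (h : IsTP K R F μ) (γ : ℝ) :
    IsTP K R (fun t => F (t - γ)) μ := by
  obtain ⟨c, h1, h2, h3⟩ := h
  refine ⟨fun h => c h * e (-(h * γ)), fun t => ?_, ?_, by beta_reduce; rw [h3]; simp [e_zero]⟩
  · rw [h1]
    refine sum_congr rfl fun h _ => ?_
    rw [mul_assoc, ← e_add]
    congr 2
    ring
  · refine le_trans (le_of_eq ?_) h2
    refine sum_congr rfl fun h _ => ?_
    rw [norm_mul, norm_e, mul_one]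

lemma IsTP.sum {ι : Type*} {K : ℕ} (S : Finset ι) (R : ι → ℝ) (F : ι → ℝ → ℝ) (μ : ι → ℝ)
    (h : ∀ i ∈ S, IsTP K (R i) (F i) (μ i)) :
    IsTP K (∑ i ∈ S, R i) (fun t => ∑ i ∈ S, F i t) (∑ i ∈ S, μ i) := by
  classical
  induction S using Finset.induction_on with
  | empty =>
    have := IsTP.const K 0
    simpa using this
  | insert a S ha ih =>
    simp only [sum_insert ha]
    exact (h a (mem_insert_self _ _)).add (ih fun i hi => h i (mem_insert_of_mem hi))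

lemma IsTP.cos {K h : ℕ} (h1 : 1 ≤ h) (hK : h ≤ K) :
    IsTP K 1 (fun t => Real.cos (2 * Real.pi * h * t)) 0 := by
  have hne : (h : ℤ) ≠ -(h : ℤ) := by omega
  have hsub : ({(h : ℤ), -(h : ℤ)} : Finset ℤ) ⊆ Icc (-(K : ℤ)) K := by
    intro i hi
    rw [mem_insert, mem_singleton] at hi
    rw [mem_Icc]
    omega
  refine ⟨fun i => if i = h ∨ i = -(h : ℤ) then 1 / 2 else 0, fun t => ?_, ?_, ?_⟩
  · rw [← sum_subset hsub]
    · rw [sum_pair hne]
      beta_reduce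
      rw [if_pos (Or.inl rfl), if_pos (Or.inr rfl)]
      have e1 : e (((h : ℤ) : ℝ) * t) = Complex.exp (((2 * Real.pi * h * t : ℝ) : ℂ) * Complex.I) := by
        unfold Pool.Agent.H469R2.NK.e
        congr 3
        push_cast; ring
      have e2 : e (((-(h : ℤ) : ℤ) : ℝ) * t) =
          Complex.exp (-((2 * Real.pi * h * t : ℝ) : ℂ) * Complex.I) := by
        unfold Pool.Agent.H469R2.NK.e
        congr 2
        push_cast; ring
      rw [e1, e2, Complex.ofReal_cos, Complex.cos]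
      ring
    · intro i _ hi
      rw [mem_insert, mem_singleton] at hi
      beta_reduce
      rw [if_neg hi, zero_mul]
  · rw [← sum_subset hsub]
    · rw [sum_pair hne]
      beta_reduce
      rw [if_pos (Or.inl rfl), if_pos (Or.inr rfl)]
      norm_num
    · intro i _ hi
      rw [mem_insert, mem_singleton] at hi
      beta_reduce
      rw [if_neg hi, norm_zero]
  · simp only
    rw [if_neg (by omega)]
    simp

/-- the truncated Fourier series of `P2` -/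
noncomputable def PK (K : ℕ) (t : ℝ) : ℝ :=
  ∑ h ∈ Icc 1 K, (1 / Real.pi ^ 2 * (1 / (h : ℝ) ^ 2)) * Real.cos (2 * Real.pi * h * t)

lemma sum_inv_sq_le (K : ℕ) : ∑ h ∈ Icc 1 K, 1 / (h : ℝ) ^ 2 ≤ 2 := by
  rcases Nat.eq_zero_or_pos K with h0 | h0
  · subst h0; simp
  · have h1 : Icc 1 K = insert 1 (Ioc 1 K) := by
      ext i
      rw [mem_Icc, mem_insert, mem_Ioc]
      omega
    rw [h1, sum_insert (by rw [mem_Ioc]; omega)]
    have h2 := sum_Ioc_inv_sq_le_sub (α := ℝ) (k := 1) (n := K) one_ne_zero h0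
    have h3 : (0 : ℝ) ≤ ((K : ℕ) : ℝ)⁻¹ := by positivity
    have h4 : ∑ h ∈ Ioc 1 K, 1 / (h : ℝ) ^ 2 = ∑ h ∈ Ioc 1 K, ((h : ℝ) ^ 2)⁻¹ :=
      sum_congr rfl fun h _ => one_div _
    rw [h4]
    norm_num at h2 ⊢
    linarith

lemma PK_TP (K : ℕ) : IsTP K 1 (PK K) 0 := by
  have h1 := IsTP.sum (K := K) (Icc 1 K)
    (fun h => |1 / Real.pi ^ 2 * (1 / (h : ℝ) ^ 2)| * 1)
    (fun h t => (1 / Real.pi ^ 2 * (1 / (h : ℝ) ^ 2)) * Real.cos (2 * Real.pi * h * t))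
    (fun h => (1 / Real.pi ^ 2 * (1 / (h : ℝ) ^ 2)) * 0)
    (fun h hh => (IsTP.cos (mem_Icc.1 hh).1 (mem_Icc.1 hh).2).smul _)
  have h2 : ∑ h ∈ Icc 1 K, (1 / Real.pi ^ 2 * (1 / (h : ℝ) ^ 2)) * 0 = 0 := by simp
  rw [h2] at h1
  refine IsTP.mono h1 ?_
  have h3 : ∑ h ∈ Icc 1 K, |1 / Real.pi ^ 2 * (1 / (h : ℝ) ^ 2)| * 1 =
      1 / Real.pi ^ 2 * ∑ h ∈ Icc 1 K, 1 / (h : ℝ) ^ 2 := by
    rw [mul_sum]
    refine sum_congr rfl fun h _ => ?_
    rw [mul_one, abs_of_nonneg (by positivity)]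
  rw [h3]
  have hpi : 3 < Real.pi := Real.pi_gt_three
  have h4 : 1 / Real.pi ^ 2 ≤ 1 / 2 := by
    apply div_le_div_of_nonneg_left (by norm_num) (by norm_num)
    nlinarith
  have h5 := sum_inv_sq_le K
  have h6 : 0 ≤ ∑ h ∈ Icc 1 K, 1 / (h : ℝ) ^ 2 := sum_nonneg fun h _ => by positivity
  have h7 : (0 : ℝ) ≤ 1 / Real.pi ^ 2 := by positivity
  nlinarith

lemma PK_near (K : ℕ) (hK : 1 ≤ K) (t : ℝ) : |P2 (Int.fract t) - PK K t| ≤ 1 / K := by
  set f : ℕ → ℝ := fun h => 1 / (h : ℝ) ^ 2 * Real.cos (2 * Real.pi * h * t) with hf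
  have hs : HasSum f (Real.pi ^ 2 * P2 (Int.fract t)) := cos_sum t
  have hpi : 3 < Real.pi := Real.pi_gt_three
  have hPK : PK K t = 1 / Real.pi ^ 2 * ∑ h ∈ Icc 1 K, f h := by
    unfold PK
    rw [mul_sum]
    exact sum_congr rfl fun h _ => by rw [hf]; ring
  have hK0 : (0 : ℝ) < K := by exact_mod_cast hK
  have hpart : ∀ M : ℕ, K < M → |∑ h ∈ range M, f h - ∑ h ∈ Icc 1 K, f h| ≤ 1 / K := by
    intro M hM
    have h1 : range M = insert 0 (Icc 1 K ∪ Ioc K (M - 1)) := by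
      ext i
      rw [mem_range, mem_insert, mem_union, mem_Icc, mem_Ioc]
      omega
    have hdisj : Disjoint (Icc 1 K) (Ioc K (M - 1)) := by
      rw [disjoint_left]
      intro a ha ha'
      rw [mem_Icc] at ha
      rw [mem_Ioc] at ha'
      omega
    have hf0 : f 0 = 0 := by rw [hf]; simp
    rw [h1, sum_insert (by rw [mem_union, mem_Icc, mem_Ioc]; omega), hf0, zero_add,
      sum_union hdisj, add_sub_cancel_left]
    refine (abs_sum_le_sum_abs _ _).trans ?_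
    have h2 : ∀ h ∈ Ioc K (M - 1), |f h| ≤ ((h : ℝ) ^ 2)⁻¹ := by
      intro h _
      rw [hf]
      simp only
      rw [abs_mul, abs_of_nonneg (by positivity : (0 : ℝ) ≤ 1 / (h : ℝ) ^ 2), one_div]
      have := Real.abs_cos_le_one (2 * Real.pi * h * t)
      have h3 : (0 : ℝ) ≤ ((h : ℝ) ^ 2)⁻¹ := by positivity
      nlinarith
    refine (sum_le_sum h2).trans ?_
    have h5 := sum_Ioc_inv_sq_le_sub (α := ℝ) (k := K) (n := M - 1) (by omega) (by omega)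
    have h6 : (0 : ℝ) ≤ ((M - 1 : ℕ) : ℝ)⁻¹ := by positivity
    rw [one_div]
    linarith
  have hlim : |Real.pi ^ 2 * P2 (Int.fract t) - ∑ h ∈ Icc 1 K, f h| ≤ 1 / K := by
    refine le_of_tendsto ((hs.tendsto_sum_nat.sub_const _).abs) ?_
    filter_upwards [eventually_gt_atTop K] with M hM using hpart M hM
  have h9 : P2 (Int.fract t) - PK K t = 1 / Real.pi ^ 2 *
      (Real.pi ^ 2 * P2 (Int.fract t) - ∑ h ∈ Icc 1 K, f h) := by
    rw [hPK]
    field_simp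
  rw [h9, abs_mul, abs_of_pos (by positivity : (0 : ℝ) < 1 / Real.pi ^ 2)]
  have h4 : 1 / Real.pi ^ 2 ≤ 1 := by
    rw [div_le_one (by positivity)]
    nlinarith
  have h5 : (0 : ℝ) < 1 / Real.pi ^ 2 := by positivity
  have h6 := abs_nonneg (Real.pi ^ 2 * P2 (Int.fract t) - ∑ h ∈ Icc 1 K, f h)
  nlinarith

/-- the sawtooth function -/
noncomputable def saw (t : ℝ) : ℝ := Int.fract t - 1 / 2

lemma abs_saw (t : ℝ) : |saw t| ≤ 1 / 2 := by
  unfold saw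
  have h1 := Int.fract_nonneg t
  have h2 := (Int.fract_lt_one t).le
  rw [abs_le]
  constructor <;> linarith

/-- upper approximation of the sawtooth function -/
noncomputable def UU (K : ℕ) (δ t : ℝ) : ℝ := 1 / (2 * δ) * (PK K t + (-1) * PK K (t - δ)) +
  (δ / 2 + 1 / (K * δ))

/-- lower approximation of the sawtooth function -/
noncomputable def LL (K : ℕ) (δ t : ℝ) : ℝ := 1 / (2 * δ) * (PK K (t - -δ) + (-1) * PK K t) +
  (-(δ / 2 + 1 / (K * δ)))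

lemma UU_TP (K : ℕ) (δ : ℝ) (hδ0 : 0 < δ) (hδ1 : δ ≤ 1) (hK : 1 / δ ^ 2 ≤ K) :
    IsTP K (3 / δ) (UU K δ) (δ / 2 + 1 / (K * δ)) := by
  have hK0 : (0 : ℝ) < K := lt_of_lt_of_le (by positivity) hK
  have h1 := (((PK_TP K).add (((PK_TP K).shift δ).smul (-1))).smul (1 / (2 * δ))).add
    (IsTP.const K (δ / 2 + 1 / (K * δ)))
  have e1 : 1 / (2 * δ) * ((0 : ℝ) + (-1) * 0) + (δ / 2 + 1 / (K * δ)) = δ / 2 + 1 / (K * δ) := by
    ring
  rw [e1] at h1
  refine IsTP.mono h1 ?_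
  have h2 : 1 / ((K : ℝ) * δ) ≤ δ := by
    rw [div_le_iff₀ (by positivity)]
    rw [div_le_iff₀ (by positivity)] at hK
    nlinarith
  rw [abs_neg, abs_one, abs_of_pos (by positivity : (0 : ℝ) < 1 / (2 * δ)),
    abs_of_pos (by positivity : (0 : ℝ) < δ / 2 + 1 / (K * δ))]
  have h3 : 1 / (2 * δ) * (1 + 1 * 1) = 1 / δ := by field_simp; ring
  rw [h3]
  have h4 : (1 : ℝ) ≤ 1 / δ := by rw [le_div_iff₀ hδ0]; linarith
  have h5 : 3 / δ = 3 * (1 / δ) := by ring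
  rw [h5]
  linarith

lemma LL_TP (K : ℕ) (δ : ℝ) (hδ0 : 0 < δ) (hδ1 : δ ≤ 1) (hK : 1 / δ ^ 2 ≤ K) :
    IsTP K (3 / δ) (LL K δ) (-(δ / 2 + 1 / (K * δ))) := by
  have hK0 : (0 : ℝ) < K := lt_of_lt_of_le (by positivity) hK
  have h1 := ((((PK_TP K).shift (-δ)).add ((PK_TP K).smul (-1))).smul (1 / (2 * δ))).add
    (IsTP.const K (-(δ / 2 + 1 / (K * δ))))
  have e1 : 1 / (2 * δ) * ((0 : ℝ) + (-1) * 0) + (-(δ / 2 + 1 / (K * δ))) =
      -(δ / 2 + 1 / (K * δ)) := by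
    ring
  rw [e1] at h1
  refine IsTP.mono h1 ?_
  have h2 : 1 / ((K : ℝ) * δ) ≤ δ := by
    rw [div_le_iff₀ (by positivity)]
    rw [div_le_iff₀ (by positivity)] at hK
    nlinarith
  rw [abs_neg, abs_neg, abs_one, abs_of_pos (by positivity : (0 : ℝ) < 1 / (2 * δ)),
    abs_of_pos (by positivity : (0 : ℝ) < δ / 2 + 1 / (K * δ))]
  have h3 : 1 / (2 * δ) * (1 + 1 * 1) = 1 / δ := by field_simp; ring
  rw [h3]
  have h4 : (1 : ℝ) ≤ 1 / δ := by rw [le_div_iff₀ hδ0]; linarith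
  have h5 : 3 / δ = 3 * (1 / δ) := by ring
  rw [h5]
  linarith

lemma approx (K : ℕ) (δ : ℝ) (hδ0 : 0 < δ) (hδ1 : δ ≤ 1) (hK : 1 / δ ^ 2 ≤ K) (t : ℝ) :
    LL K δ t ≤ saw t ∧ saw t ≤ UU K δ t ∧ |LL K δ t| ≤ 4 := by
  have hK0 : (0 : ℝ) < K := lt_of_lt_of_le (by positivity) hK
  have hK1 : 1 ≤ K := by exact_mod_cast hK0
  have h2 : 1 / ((K : ℝ) * δ) ≤ δ := by
    rw [div_le_iff₀ (by positivity)]
    rw [div_le_iff₀ (by positivity)] at hK
    nlinarith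
  have eK : 1 / ((K : ℝ) * δ) = 1 / (2 * δ) * (1 / K + 1 / K) := by field_simp; ring
  have a0 := abs_le.1 (PK_near K hK1 t)
  have a1 := abs_le.1 (PK_near K hK1 (t - δ))
  have a2 := abs_le.1 (PK_near K hK1 (t + δ))
  have hp : 0 < 1 / (2 * δ) := by positivity
  have u := saw_upper t δ hδ0 hδ1
  have l := saw_lower t δ hδ0 hδ1
  have u' := saw_upper (t + δ) δ hδ0 hδ1
  have s1 := abs_le.1 (abs_saw (t + δ))
  have s2 := abs_le.1 (abs_saw t)
  unfold saw at s1 s2 ⊢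
  rw [add_sub_cancel_right] at u'
  have ediv : ∀ z : ℝ, z / (2 * δ) = 1 / (2 * δ) * z := fun z => by ring
  rw [ediv] at u l u'
  refine ⟨?_, ?_, ?_⟩
  · unfold LL
    rw [eK, sub_neg_eq_add]
    have : 1 / (2 * δ) * (PK K (t + δ) + -1 * PK K t) ≤
        1 / (2 * δ) * (P2 (Int.fract (t + δ)) - P2 (Int.fract t)) + 1 / (2 * δ) * (1 / K + 1 / K) := by
      rw [← mul_add]
      apply mul_le_mul_of_nonneg_left _ hp.le
      linarith [a0.1, a0.2, a2.1, a2.2]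
    linarith
  · unfold UU
    rw [eK]
    have : 1 / (2 * δ) * (P2 (Int.fract t) - P2 (Int.fract (t - δ))) ≤
        1 / (2 * δ) * (PK K t + -1 * PK K (t - δ)) + 1 / (2 * δ) * (1 / K + 1 / K) := by
      rw [← mul_add]
      apply mul_le_mul_of_nonneg_left _ hp.le
      linarith [a0.1, a0.2, a1.1, a1.2]
    linarith
  · unfold LL
    rw [eK, sub_neg_eq_add]
    have e1 : 1 / (2 * δ) * (PK K (t + δ) + -1 * PK K t) ≤
        1 / (2 * δ) * (P2 (Int.fract (t + δ)) - P2 (Int.fract t)) + 1 / (2 * δ) * (1 / K + 1 / K) := by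
      rw [← mul_add]
      apply mul_le_mul_of_nonneg_left _ hp.le
      linarith [a0.1, a0.2, a2.1, a2.2]
    have e2 : 1 / (2 * δ) * (P2 (Int.fract (t + δ)) - P2 (Int.fract t)) ≤
        1 / (2 * δ) * (PK K (t + δ) + -1 * PK K t) + 1 / (2 * δ) * (1 / K + 1 / K) := by
      rw [← mul_add]
      apply mul_le_mul_of_nonneg_left _ hp.le
      linarith [a0.1, a0.2, a2.1, a2.2]
    rw [← eK] at e1 e2 ⊢
    rw [abs_le]
    constructor <;> linarith [s1.1, s1.2, s2.1, s2.2]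

end Pool.Agent.R485.Mult
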