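import Pool.Agent.R485.Mult.CLT

/-!
# The moments of the number of occurrences of words
-/

set_option autoImplicit false

namespace Pool.Agent.R485.Mult

open Finset Filter Topology MeasureTheory

lemma Approx.add_const {K : ℕ} {R C w : ℝ} {g : ℝ → ℝ} (h : Approx K R C w g) (c : ℝ) :
    Approx K (R + |c|) (C + |c|) w (fun t => g t + c) := by
  obtain ⟨G, W, μ, ω, hG, hW, hgC, hGC, hgG, hω⟩ := h
  refine ⟨fun t => G t + c, W, μ + c, ω, hG.add (IsTP.const K c), hW.mono ?_, ?_, ?_, ?_, hω⟩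
  · have := abs_nonneg c
    linarith
  · intro t
    exact (abs_add_le _ _).trans (add_le_add (hgC t) le_rfl)
  · intro t
    exact (abs_add_le _ _).trans (add_le_add (hGC t) le_rfl)
  · intro t
    rw [add_sub_add_right_eq_sub]
    exact hgG t

/-- the sum of `f` over the words of length `k` at the first `N` places -/
noncomputable def WS (b k : ℕ) (f : ℕ → ℝ) (N : ℕ) (z : ℝ) : ℝ :=
  ∑ i ∈ range N, f (dg (b ^ k) (z * (b : ℝ) ^ i))

lemma dg_floor (b k N i : ℕ) (hb : 2 ≤ b) (hik : i + k ≤ 2 * N) (t : ℝ) (a : ℕ)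
    (ha : (a : ℝ) ≤ t * (b : ℝ) ^ (2 * N)) (ha' : t * (b : ℝ) ^ (2 * N) < a + 1) :
    dg (b ^ k) (t * (b : ℝ) ^ i) = a / b ^ (2 * N - i - k) % b ^ k := by
  have hb0 : (0 : ℝ) < b := by exact_mod_cast (by omega : 0 < b)
  unfold dg
  have h1 : ((b ^ k : ℕ) : ℝ) * (t * (b : ℝ) ^ i) =
      (t * (b : ℝ) ^ (2 * N)) / ((b ^ (2 * N - i - k) : ℕ) : ℝ) := by
    have h2 : (b : ℝ) ^ (2 * N) = (b : ℝ) ^ (2 * N - i - k) * ((b : ℝ) ^ i * (b : ℝ) ^ k) := by
      rw [← pow_add, ← pow_add]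
      congr 1
      omega
    rw [h2]
    push_cast
    field_simp
  have h3 : ⌊t * (b : ℝ) ^ (2 * N)⌋ = (a : ℤ) := by
    rw [Int.floor_eq_iff]
    push_cast
    exact ⟨ha, ha'⟩
  rw [h1, Int.floor_div_natCast, h3]
  have h2 : ((a : ℤ) / ((b ^ (2 * N - i - k) : ℕ) : ℤ)) % ((b ^ k : ℕ) : ℤ) =
      ((a / b ^ (2 * N - i - k) % b ^ k : ℕ) : ℤ) := by
    rw [Int.natCast_mod, Int.natCast_div]
  rw [h2, Int.toNat_natCast]

/-- the integral over the unit interval is the average over the model -/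
lemma integral_eq (b k : ℕ) (hb : 2 ≤ b) (f : ℕ → ℝ) (N n : ℕ) (hN : k ≤ N) :
    ∫ t in (0 : ℝ)..1, WS b k f N t ^ n = avg (b ^ (2 * N)) (ZM b N) (fun z => WS b k f N z ^ n) := by
  have hb0 : (0 : ℝ) < b := by exact_mod_cast (by omega : 0 < b)
  set L : ℕ := b ^ (2 * N) with hL
  have hL0 : 0 < L := by positivity
  have hLR : (0 : ℝ) < L := by exact_mod_cast hL0
  have hLb : (b : ℝ) ^ (2 * N) = L := by rw [hL]; push_cast; rfl
  have hconst : ∀ a : ℕ, ∀ t ∈ Set.Ico ((a : ℝ) / L) (((a : ℝ) + 1) / L),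
      WS b k f N t ^ n = WS b k f N (ZM b N a) ^ n := by
    intro a t ht
    congr 1
    unfold WS
    refine sum_congr rfl fun i hi => ?_
    rw [mem_range] at hi
    rw [Set.mem_Ico, div_le_iff₀ hLR, lt_div_iff₀ hLR] at ht
    rw [dg_floor b k N i hb (by omega) t a (by rw [hLb]; exact ht.1) (by rw [hLb]; exact ht.2)]
    have e1 : ZM b N a * (b : ℝ) ^ (2 * N) = a := by
      unfold ZM
      field_simp
    rw [dg_floor b k N i hb (by omega) (ZM b N a) a (by rw [e1]) (by rw [e1]; linarith)]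
  have hint : ∀ a : ℕ, ∫ t in ((a : ℝ) / L)..(((a : ℝ) + 1) / L), WS b k f N t ^ n =
      WS b k f N (ZM b N a) ^ n / L := by
    intro a
    have hle : (a : ℝ) / L ≤ ((a : ℝ) + 1) / L := by gcongr; linarith
    have h1 : ∫ t in ((a : ℝ) / L)..(((a : ℝ) + 1) / L), WS b k f N t ^ n =
        ∫ _t in ((a : ℝ) / L)..(((a : ℝ) + 1) / L), WS b k f N (ZM b N a) ^ n := by
      rw [intervalIntegral.integral_of_le hle, intervalIntegral.integral_of_le hle,
        ← integral_Ico_eq_integral_Ioc, ← integral_Ico_eq_integral_Ioc]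
      exact setIntegral_congr_fun measurableSet_Ico (hconst a)
    rw [h1, intervalIntegral.integral_const, smul_eq_mul]
    field_simp
    ring
  have hii : ∀ a : ℕ, IntervalIntegrable (fun t => WS b k f N t ^ n) volume ((a : ℝ) / L)
      (((a : ℝ) + 1) / L) := by
    intro a
    have hle : (a : ℝ) / L ≤ ((a : ℝ) + 1) / L := by gcongr; linarith
    rw [intervalIntegrable_iff_integrableOn_Ico_of_le hle]
    have h1 : IntegrableOn (fun _ : ℝ => WS b k f N (ZM b N a) ^ n)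
        (Set.Ico ((a : ℝ) / L) (((a : ℝ) + 1) / L)) := by
      apply integrableOn_const (by simp) (by simp)
    exact h1.congr_fun (fun t ht => (hconst a t ht).symm) measurableSet_Ico
  have h2 := intervalIntegral.sum_integral_adjacent_intervals (f := fun t => WS b k f N t ^ n)
    (μ := volume) (a := fun a : ℕ => (a : ℝ) / L) (n := L) (fun a _ => by
      have := hii a
      simp only [Nat.cast_add, Nat.cast_one]
      exact this)
  simp only [Nat.cast_zero, zero_div, Nat.cast_add, Nat.cast_one] at h2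
  rw [div_self hLR.ne'] at h2
  rw [← h2]
  unfold avg
  rw [sum_div]
  exact sum_congr rfl fun a _ => hint a

/-- **The moments of the number of occurrences of words.** -/
theorem word_moments (b : ℕ) (hb : 2 ≤ b) (x : ℝ) (hx : IsAlgebraic ℚ x) (hirr : Irrational x)
    (k : ℕ) (hk : 1 ≤ k) (f : ℕ → ℝ) (n A : ℕ) (ε : ℝ) (hε : 0 < ε) :
    ∃ N0 : ℕ, ∀ N : ℕ, N0 ≤ N → ∀ (y : ℝ) (J : ℤ) (M : ℕ), Real.exp (ε * N) ≤ M →
      |(∑ m ∈ range M, WS b k f N (y + (J + m) * x) ^ n) / M - ∫ t in (0 : ℝ)..1, WS b k f N t ^ n| ≤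
        1 / (N : ℝ) ^ A := by
  classical
  rcases Nat.eq_zero_or_pos n with hn0 | hn0
  · subst hn0
    refine ⟨0, fun N _ y J M hM => ?_⟩
    have hM0 : (0 : ℝ) < M := lt_of_lt_of_le (Real.exp_pos _) hM
    simp [hM0.ne']
  set B : ℕ := b ^ k with hB
  have hB2 : 2 ≤ B := by
    rw [hB]
    exact hb.trans (Nat.le_self_pow (by omega) b)
  have hB0 : (0 : ℝ) < B := by exact_mod_cast (by omega : 0 < B)
  set F : ℝ := ∑ a ∈ range B, |f a| with hF
  have hFa : ∀ a ∈ range B, |f a| ≤ F := fun a ha =>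
    single_le_sum (f := fun a => |f a|) (fun i _ => abs_nonneg _) ha
  have hF0 : 0 ≤ F := sum_nonneg fun i _ => abs_nonneg _
  set μ : ℝ := (∑ a ∈ range B, f a) / B with hμ
  set A' : ℕ := n + A + 1 with hA'
  obtain ⟨κ, hκ, N1, hN1⟩ := good_alg b hb x hx hirr n ε hε
  set C : ℝ := 8 * B * F + 1 + |μ| with hC
  have hC1 : 1 ≤ C := by
    have : 0 ≤ 8 * B * F := by positivity
    have := abs_nonneg μ
    linarith
  -- the error term
  have herr : ∀ᶠ N : ℕ in atTop, (N : ℝ) ^ A * ((N : ℝ) ^ n * (2 * (C ^ n * (n * (6 * B * F *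
      (1 / (N : ℝ) ^ A') + (2 * Real.exp (-(ε / 2 * N))) * (12 * B * F / (1 / (N : ℝ) ^ A') + |μ|)))) +
      2 * ((2 * Real.exp (-(ε / 2 * N))) * (12 * B * F / (1 / (N : ℝ) ^ A') + |μ|) ^ n))) ≤ 1 := by
    have hbig : ∀ᶠ N : ℕ in atTop, (12 * B * F + |μ|) ≤ N :=
      tendsto_natCast_atTop_atTop.eventually_ge_atTop _
    have h1 := (pow_mul_inv_tendsto (A + n) A' (by omega)).const_mul
      (2 * (C ^ n * (n * (6 * B * F))))
    have h2 := (pow_mul_exp_tendsto (A + n + (A' + 1)) (ε / 2) (by positivity)).const_mul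
      (2 * (C ^ n * (n * 2)))
    have h3 := (pow_mul_exp_tendsto (A + n + (A' + 1) * n) (ε / 2) (by positivity)).const_mul
      (2 * 2 : ℝ)
    have h4 := (h1.add h2).add h3
    rw [mul_zero, mul_zero, mul_zero, add_zero, add_zero] at h4
    filter_upwards [h4.eventually_le_const one_pos, hbig, eventually_ge_atTop 1] with N a1 a2 a3
    have hNR : (1 : ℝ) ≤ N := by exact_mod_cast a3
    refine le_trans ?_ a1
    have e1 : 12 * B * F / (1 / (N : ℝ) ^ A') + |μ| ≤ (N : ℝ) ^ (A' + 1) := by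
      rw [div_div_eq_mul_div, div_one, pow_succ]
      have h5 : (1 : ℝ) ≤ (N : ℝ) ^ A' := one_le_pow₀ hNR
      have h6 : |μ| ≤ |μ| * (N : ℝ) ^ A' := by
        have := abs_nonneg μ
        nlinarith
      calc 12 * B * F * (N : ℝ) ^ A' + |μ| ≤ (12 * B * F + |μ|) * (N : ℝ) ^ A' := by linarith
        _ ≤ N * (N : ℝ) ^ A' := by gcongr
        _ = (N : ℝ) ^ A' * N := by ring
    have e0 : 0 ≤ 12 * B * F / (1 / (N : ℝ) ^ A') + |μ| := by positivity
    have e2 := pow_le_pow_left₀ e0 e1 n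
    have hCn : 0 ≤ C ^ n := by positivity
    calc (N : ℝ) ^ A * ((N : ℝ) ^ n * (2 * (C ^ n * (n * (6 * B * F *
          (1 / (N : ℝ) ^ A') + (2 * Real.exp (-(ε / 2 * N))) * (12 * B * F / (1 / (N : ℝ) ^ A') + |μ|)))) +
          2 * ((2 * Real.exp (-(ε / 2 * N))) * (12 * B * F / (1 / (N : ℝ) ^ A') + |μ|) ^ n)))
        ≤ (N : ℝ) ^ A * ((N : ℝ) ^ n * (2 * (C ^ n * (n * (6 * B * F *
          (1 / (N : ℝ) ^ A') + (2 * Real.exp (-(ε / 2 * N))) * (N : ℝ) ^ (A' + 1)))) +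
          2 * ((2 * Real.exp (-(ε / 2 * N))) * ((N : ℝ) ^ (A' + 1)) ^ n))) := by gcongr
      _ = _ := by
          rw [← pow_mul]
          rw [pow_add (N : ℝ) (A + n) (A' + 1), pow_add (N : ℝ) (A + n) ((A' + 1) * n),
            pow_add (N : ℝ) A n]
          ring
  have l1 : ∀ᶠ N : ℕ in atTop, (((N ^ (2 * A') : ℕ) : ℝ) ≤ Real.exp (κ * N)) ∧
      n * N ^ (2 * A') < 2 ^ N := by
    have h1 : ∀ᶠ N : ℕ in atTop, (N : ℝ) ^ (2 * A') * Real.exp (-(κ * N)) ≤ 1 :=
      (pow_mul_exp_tendsto (2 * A') κ hκ).eventually_le_const one_pos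
    have h2 : ∀ᶠ N : ℕ in atTop, (N : ℝ) ^ (2 * A') * Real.exp (-(Real.log 2 * N)) ≤
        1 / (2 * ((n : ℝ) + 1)) :=
      (pow_mul_exp_tendsto (2 * A') (Real.log 2) (Real.log_pos (by norm_num))).eventually_le_const
        (by positivity)
    filter_upwards [h1, h2] with N a1 a2
    refine ⟨?_, ?_⟩
    · push_cast
      rw [Real.exp_neg, ← div_eq_mul_inv, div_le_one (Real.exp_pos _)] at a1
      exact a1
    · have h3 : Real.exp (Real.log 2 * N) = (2 : ℝ) ^ N := by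
        rw [mul_comm, Real.exp_nat_mul, Real.exp_log (by norm_num)]
      rw [Real.exp_neg, ← div_eq_mul_inv, h3, div_le_iff₀ (by positivity)] at a2
      have h4 : (n : ℝ) * (N : ℝ) ^ (2 * A') < 2 ^ N := by
        have h5 : (n : ℝ) * (N : ℝ) ^ (2 * A') ≤ n * (1 / (2 * ((n : ℝ) + 1)) * 2 ^ N) :=
          mul_le_mul_of_nonneg_left a2 (Nat.cast_nonneg _)
        have h6 : (n : ℝ) * (1 / (2 * ((n : ℝ) + 1)) * 2 ^ N) = n / (2 * ((n : ℝ) + 1)) * 2 ^ N := by
          ring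
        have h7 : (n : ℝ) / (2 * ((n : ℝ) + 1)) < 1 := by
          rw [div_lt_one (by positivity)]
          have : (0 : ℝ) ≤ n := Nat.cast_nonneg _
          linarith
        have h8 : (0 : ℝ) < 2 ^ N := by positivity
        nlinarith
      exact_mod_cast h4
  obtain ⟨N2, hN2⟩ := eventually_atTop.1 (herr.and l1)
  refine ⟨max (max N1 N2) (max k 1), fun N hN y J M hM => ?_⟩
  have hNa : N1 ≤ N := ((le_max_left _ _).trans (le_max_left _ _)).trans hN
  obtain ⟨m1, m2, m3⟩ := hN2 N (((le_max_right _ _).trans (le_max_left _ _)).trans hN)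
  have hNk : k ≤ N := ((le_max_left _ _).trans (le_max_right _ _)).trans hN
  have hNd : 1 ≤ N := ((le_max_right _ _).trans (le_max_right _ _)).trans hN
  have hNR : (1 : ℝ) ≤ N := by exact_mod_cast hNd
  have hM0 : 0 < M := by
    have : (0 : ℝ) < M := lt_of_lt_of_le (Real.exp_pos _) hM
    exact_mod_cast this
  have hδ0 : 0 < 1 / (N : ℝ) ^ A' := by positivity
  have hδ1 : 1 / (N : ℝ) ^ A' ≤ 1 := by
    rw [div_le_one (by positivity)]
    exact one_le_pow₀ hNR
  have hK : 1 / (1 / (N : ℝ) ^ A') ^ 2 ≤ ((N ^ (2 * A') : ℕ) : ℝ) := by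
    rw [one_div_pow, one_div_one_div, ← pow_mul]
    push_cast
    rw [mul_comm A' 2]
  have happ := (approx_digit B hB2 f F hFa (N ^ (2 * A')) (1 / (N : ℝ) ^ A') hδ0 hδ1 hK).add_const μ
  rw [integral_eq b k hb f N n hNk]
  have h2 := avg_moment (N := N) (by omega : 1 ≤ b) hn0 happ hC1 M (b ^ (2 * N))
        (fun m => y + (J + m) * x) (ZM b N) (2 * Real.exp (-(ε / 2 * N))) hM0 (by positivity)
        (by positivity) (hN1 N hNa _ m2 y J M hM) (good_model b n _ N hb m3 _ (by positivity))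
  have h3 : ∀ z, ∑ i ∈ range N, (f (dg B (z * (b : ℝ) ^ i)) - (∑ a ∈ range B, f a) / B + μ) =
      WS b k f N z := by
    intro z
    unfold WS
    refine sum_congr rfl fun i _ => ?_
    rw [hμ, sub_add_cancel]
  simp_rw [h3] at h2
  rw [le_div_iff₀ (by positivity)]
  have h4 : |(∑ m ∈ range M, WS b k f N (y + (J + m) * x) ^ n) / M -
      avg (b ^ (2 * N)) (ZM b N) (fun z => WS b k f N z ^ n)| * (N : ℝ) ^ A ≤ (N : ℝ) ^ A * ((N : ℝ) ^ n * (2 * (C ^ n * (n * (6 * B * F *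
      (1 / (N : ℝ) ^ A') + (2 * Real.exp (-(ε / 2 * N))) * (12 * B * F / (1 / (N : ℝ) ^ A') + |μ|)))) +
      2 * ((2 * Real.exp (-(ε / 2 * N))) * (12 * B * F / (1 / (N : ℝ) ^ A') + |μ|) ^ n))) := by
    rw [mul_comm]
    exact mul_le_mul_of_nonneg_left h2 (by positivity)
  exact h4.trans m1

end Pool.Agent.R485.Mult
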